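import Pool.Agent.Zk56.UV.Ineq3

set_option autoImplicit false

open Real Finset

namespace Pool.Agent.Zk56.UV

/-- twice the real part of the boundary curve -/
noncomputable def X2 (n q : ℕ) (t : ℝ) : ℝ := Kt n (t + q * ph n) - Kt n (t - q * ph n)

/-- twice the imaginary part of the boundary curve -/
noncomputable def Y2 (n q : ℕ) (t : ℝ) : ℝ := Ks n (t - q * ph n) - Ks n (t + q * ph n)

theorem X2_eq (n q : ℕ) (t : ℝ) :
    X2 n q t = 2 * ∑ j ∈ range n, wt n j * sin (j * (q * ph n)) * cos (j * t) := by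
  unfold X2 Kt
  rw [← sum_sub_distrib, mul_sum]
  refine sum_congr rfl fun j _ => ?_
  rw [mul_add, mul_sub, sin_add, sin_sub]
  ring

theorem Y2_eq (n q : ℕ) (t : ℝ) :
    Y2 n q t = 2 * ∑ j ∈ range n, wt n j * sin (j * (q * ph n)) * sin (j * t) := by
  unfold Y2 Ks
  rw [sub_sub_sub_cancel_right, ← sum_sub_distrib, mul_sum]
  refine sum_congr rfl fun j _ => ?_
  rw [mul_add, mul_sub, cos_add, cos_sub]
  ring

theorem hasDerivAt_X2 (n q : ℕ) (t : ℝ) :
    HasDerivAt (X2 n q) (Ls n (t + q * ph n) - Ls n (t - q * ph n)) t := by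
  have h1 : HasDerivAt (fun t : ℝ => t + q * ph n) 1 t := (hasDerivAt_id t).add_const _
  have h2 : HasDerivAt (fun t : ℝ => t - q * ph n) 1 t := (hasDerivAt_id t).sub_const _
  have h3 := (hasDerivAt_Kt n (t + q * ph n)).comp t h1
  have h4 := (hasDerivAt_Kt n (t - q * ph n)).comp t h2
  rw [mul_one] at h3 h4
  exact h3.sub h4

theorem hasDerivAt_Y2 (n q : ℕ) (t : ℝ) :
    HasDerivAt (Y2 n q) (Ms n (t + q * ph n) - Ms n (t - q * ph n)) t := by
  have h1 : HasDerivAt (fun t : ℝ => t + q * ph n) 1 t := (hasDerivAt_id t).add_const _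
  have h2 : HasDerivAt (fun t : ℝ => t - q * ph n) 1 t := (hasDerivAt_id t).sub_const _
  have h3 := (hasDerivAt_Ks n (t + q * ph n)).comp t h1
  have h4 := (hasDerivAt_Ks n (t - q * ph n)).comp t h2
  rw [mul_one] at h3 h4
  have h5 := h4.sub h3
  have e : -Ms n (t - q * ph n) - -Ms n (t + q * ph n)
      = Ms n (t + q * ph n) - Ms n (t - q * ph n) := by ring
  rw [e] at h5
  exact h5

/-- angle bookkeeping -/
theorem al_bounds (n q : ℕ) (hq1 : 1 ≤ q) (hq2 : q + 2 ≤ n) :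
    ph n ≤ q * ph n ∧ q * ph n + 2 * ph n ≤ π := by
  have hp := ph_pos n (by omega)
  constructor
  · have : (1 : ℝ) ≤ q := by exact_mod_cast hq1
    nlinarith
  · rw [← ph_mul n (by omega)]
    have : (q : ℝ) + 2 ≤ n := by exact_mod_cast hq2
    nlinarith

theorem al_two (n q : ℕ) (hn : 0 < n) (hq1 : 2 ≤ q) : 2 * ph n ≤ q * ph n := by
  have hp := ph_pos n hn
  have : (2 : ℝ) ≤ q := by exact_mod_cast hq1
  nlinarith

/-- positivity of the terms for `q = 1` near the origin -/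
theorem term_nonneg (n j : ℕ) (hn : 4 ≤ n) (hj : j < n) (t : ℝ) (ht0 : 0 ≤ t) (ht1 : t ≤ ph n) :
    0 ≤ wt n j * sin (j * ph n) * sin (j * t) := by
  have hp := ph_pos n (by omega)
  have h1 := wt_nonneg n j (by omega) hj
  have h2 := sin_mul_ph_nonneg n j (by omega) hj.le
  have h3 : 0 ≤ sin (j * t) := by
    apply sin_nonneg_of_nonneg_of_le_pi (by positivity)
    rw [← ph_mul n (by omega)]
    apply mul_le_mul _ ht1 ht0 (by positivity)
    exact_mod_cast hj.le
  positivity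

theorem term_pos (n : ℕ) (hn : 4 ≤ n) (t : ℝ) (ht0 : 0 < t) (ht1 : t ≤ ph n) :
    0 < wt n 1 * sin ((1 : ℕ) * ph n) * sin ((1 : ℕ) * t) := by
  have hp := ph_pos n (by omega)
  have hple := ph_le n hn
  have h1 := wt_pos n 1 (by omega)
  have h2 := sin_mul_ph_pos n 1 (by omega) (by omega)
  have h3 : 0 < sin ((1 : ℕ) * t) := by
    push_cast
    rw [one_mul]
    exact sin_pos_of_pos_of_lt_pi ht0 (by linarith [pi_pos])
  positivity

/-- (C1), derivative form -/
theorem X2_deriv_neg (n q : ℕ) (hn : 4 ≤ n) (hq1 : 1 ≤ q) (hq2 : q + 2 ≤ n) (t : ℝ)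
    (ht0 : 0 < t) (hs : |t - q * ph n| ≤ ph n) :
    Ls n (t + q * ph n) - Ls n (t - q * ph n) < 0 := by
  have hp := ph_pos n (by omega)
  have hple := ph_le n hn
  obtain ⟨ha1, ha2⟩ := al_bounds n q hq1 hq2
  have hs' := abs_le.1 hs
  have h1 := Ls_ge n hn _ hs
  have h2 := Ls_ph_pos n hn
  rcases Nat.lt_or_ge 1 q with hq | hq
  · have ha3 := al_two n q (by omega) hq
    have h3 := Ls_nonpos n hn (t + q * ph n) (by linarith) (by linarith)
    linarith
  · have hq' : q = 1 := by omega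
    subst hq'
    simp only [Nat.cast_one, one_mul] at *
    rcases le_total (ph n) t with ht | ht
    · have h3 := Ls_nonpos n hn (t + ph n) (by linarith) (by linarith)
      linarith
    · have e : Ls n (t + ph n) - Ls n (t - ph n)
          = -(2 * ∑ j ∈ range n, j * (wt n j * sin (j * ph n) * sin (j * t))) := by
        unfold Ls
        rw [← sum_sub_distrib, mul_sum, ← sum_neg_distrib]
        refine sum_congr rfl fun j _ => ?_
        rw [mul_add, mul_sub, cos_add, cos_sub]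
        ring
      rw [e, neg_lt_zero]
      apply mul_pos two_pos
      apply sum_pos'
      · intro j hj
        exact mul_nonneg (Nat.cast_nonneg j) (term_nonneg n j hn (mem_range.1 hj) t ht0.le ht)
      · refine ⟨1, mem_range.2 (by omega), ?_⟩
        have := term_pos n hn t ht0 ht
        exact mul_pos (by norm_num) this

/-- (C1) -/
theorem X2_anti (n q : ℕ) (hn : 4 ≤ n) (hq1 : 1 ≤ q) (hq2 : q + 2 ≤ n) :
    StrictAntiOn (X2 n q) (Set.Icc (q * ph n - ph n) (q * ph n + ph n)) := by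
  have hp := ph_pos n (by omega)
  obtain ⟨ha1, ha2⟩ := al_bounds n q hq1 hq2
  apply strictAntiOn_of_deriv_neg (convex_Icc _ _)
  · exact fun x _ => (hasDerivAt_X2 n q x).continuousAt.continuousWithinAt
  · intro x hx
    rw [interior_Icc] at hx
    rw [(hasDerivAt_X2 n q x).deriv]
    apply X2_deriv_neg n q hn hq1 hq2 x (by linarith [hx.1])
    rw [abs_le]
    constructor <;> linarith [hx.1, hx.2]

theorem cos_nsig (n q : ℕ) (hn : 0 < n) (t : ℝ) :
    cos (n * (t + q * ph n)) = cos (n * (t - q * ph n)) := by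
  have h : (n : ℝ) * (t + q * ph n) = n * (t - q * ph n) + q * (2 * π) := by
    rw [← ph_mul n hn]
    ring
  rw [h, cos_add_nat_mul_two_pi]

theorem sin_nsig (n q : ℕ) (hn : 0 < n) (t : ℝ) :
    sin (n * (t + q * ph n)) = sin (n * (t - q * ph n)) := by
  have h : (n : ℝ) * (t + q * ph n) = n * (t - q * ph n) + q * (2 * π) := by
    rw [← ph_mul n hn]
    ring
  rw [h, sin_add_nat_mul_two_pi]

/-- on the middle part the curve is high -/
theorem Y2_mid (n q : ℕ) (hn : 4 ≤ n) (hq1 : 1 ≤ q) (hq2 : q + 2 ≤ n) (t : ℝ)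
    (hs : |t - q * ph n| ≤ ph n) (hcase : 2 ≤ q ∨ ph n ≤ t) :
    n ^ 2 * sin (ph n) / 4 ≤ Y2 n q t := by
  have hp := ph_pos n (by omega)
  have hple := ph_le n hn
  obtain ⟨ha1, ha2⟩ := al_bounds n q hq1 hq2
  have hs' := abs_le.1 hs
  apply Ks_mid n hn _ _ hs (cos_nsig n q (by omega) t)
  have hr : 2 * ph n ≤ t + q * ph n ∧ t + q * ph n ≤ 2 * π - 2 * ph n := by
    rcases hcase with hq | ht
    · have ha3 := al_two n q (by omega) hq
      constructor <;> linarith
    · constructor <;> linarith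
  have h2 : cos (t + q * ph n) ≤ cos (2 * ph n) := by
    rcases le_total (t + q * ph n) π with h | h
    · apply cos_le_cos_of_nonneg_of_le_pi (by positivity) h hr.1
    · rw [← cos_two_pi_sub]
      apply cos_le_cos_of_nonneg_of_le_pi <;> linarith [hr.2]
  rw [cos_two] at h2
  unfold Dd
  nlinarith

theorem Ks_nonneg (n : ℕ) (hn : 4 ≤ n) (s : ℝ) (hD : Dd n s ≠ 0) : 0 ≤ Ks n s := by
  have hs := sin_ph_pos n (by omega)
  have h1 := closedK n (by omega) s
  have h2 : 0 ≤ 2 * Dd n s ^ 2 * Ks n s := by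
    rw [h1]
    have : 0 ≤ 1 + cos (n * s) := by linarith [neg_one_le_cos (n * s)]
    positivity
  exact nonneg_of_mul_nonneg_right h2 (by positivity)

/-- the outer region -/
structure Out (n q : ℕ) (t : ℝ) : Prop where
  h0 : 0 ≤ t
  h1 : t ≤ π
  h2 : ph n < |t - q * ph n|

theorem Out.sig {n q : ℕ} {t : ℝ} (h : Out n q t) (hn : 4 ≤ n) (hq1 : 1 ≤ q) (hq2 : q + 2 ≤ n) :
    ph n < t + q * ph n ∧ t + q * ph n ≤ 2 * π - 2 * ph n := by
  have hp := ph_pos n (by omega)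
  obtain ⟨ha1, ha2⟩ := al_bounds n q hq1 hq2
  have := h.h0
  have := h.h1
  refine ⟨?_, by linarith⟩
  rcases lt_abs.1 h.h2 with h3 | h3 <;> linarith

theorem Out.absle {n q : ℕ} {t : ℝ} (h : Out n q t) (hn : 4 ≤ n) (hq1 : 1 ≤ q) (hq2 : q + 2 ≤ n) :
    |t - q * ph n| ≤ π - ph n := by
  have hp := ph_pos n (by omega)
  obtain ⟨ha1, ha2⟩ := al_bounds n q hq1 hq2
  have := h.h0
  have := h.h1
  rw [abs_le]
  constructor <;> linarith

theorem Dd_sig_neg (n : ℕ) (hn : 4 ≤ n) (σ : ℝ) (h1 : ph n < σ) (h2 : σ ≤ 2 * π - 2 * ph n) :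
    Dd n σ < 0 := by
  have hp := ph_pos n (by omega)
  rcases le_total σ π with h | h
  · exact Dd_neg n hn σ h1 h
  · have := Dd_neg n hn (2 * π - σ) (by linarith) (by linarith)
    unfold Dd at this ⊢
    rwa [cos_two_pi_sub] at this

theorem Dd_abs (n : ℕ) (s : ℝ) : Dd n |s| = Dd n s := by
  unfold Dd
  rw [cos_abs]

theorem Out.Dsig {n q : ℕ} {t : ℝ} (h : Out n q t) (hn : 4 ≤ n) (hq1 : 1 ≤ q) (hq2 : q + 2 ≤ n) :
    Dd n (t + q * ph n) < 0 :=
  Dd_sig_neg n hn _ (h.sig hn hq1 hq2).1 (h.sig hn hq1 hq2).2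

theorem Out.Ds {n q : ℕ} {t : ℝ} (h : Out n q t) (hn : 4 ≤ n) (hq1 : 1 ≤ q) (hq2 : q + 2 ≤ n) :
    Dd n (t - q * ph n) < 0 := by
  have hp := ph_pos n (by omega)
  rw [← Dd_abs]
  exact Dd_neg n hn _ h.h2 (by linarith [h.absle hn hq1 hq2])

/-- upper bound on the outer region -/
theorem Y2_out_lt (n q : ℕ) (hn : 4 ≤ n) (hq1 : 1 ≤ q) (hq2 : q + 2 ≤ n) (t : ℝ)
    (h : Out n q t) : Y2 n q t < n ^ 2 * sin (ph n) / 4 := by
  have h1 := Ks_lt n hn _ h.h2 (h.absle hn hq1 hq2)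
  rw [Ks_abs] at h1
  have h2 := Ks_nonneg n hn _ (h.Dsig hn hq1 hq2).ne
  unfold Y2
  linarith

theorem Dd_sq (n : ℕ) (t a : ℝ) :
    Dd n (t + a) ^ 2 - Dd n (t - a) ^ 2 = 4 * sin t * sin a * (cos (ph n) - cos t * cos a) := by
  unfold Dd
  rw [cos_add, cos_sub]
  ring

theorem cos_al (n q : ℕ) (hn : 4 ≤ n) (hq1 : 1 ≤ q) (hq2 : q + 2 ≤ n) :
    |cos (q * ph n)| ≤ cos (ph n) := by
  have hp := ph_pos n (by omega)
  obtain ⟨ha1, ha2⟩ := al_bounds n q hq1 hq2
  rw [abs_le]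
  constructor
  · have : cos (π - q * ph n) ≤ cos (ph n) := by
      apply cos_le_cos_of_nonneg_of_le_pi <;> linarith
    rw [cos_pi_sub] at this
    linarith
  · apply cos_le_cos_of_nonneg_of_le_pi <;> linarith

theorem sin_al (n q : ℕ) (hn : 4 ≤ n) (hq1 : 1 ≤ q) (hq2 : q + 2 ≤ n) :
    0 < sin (q * ph n) := by
  have hp := ph_pos n (by omega)
  obtain ⟨ha1, ha2⟩ := al_bounds n q hq1 hq2
  apply sin_pos_of_pos_of_lt_pi <;> linarith

theorem Dd_sq_le (n q : ℕ) (hn : 4 ≤ n) (hq1 : 1 ≤ q) (hq2 : q + 2 ≤ n) (t : ℝ)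
    (h0 : 0 ≤ t) (h1 : t ≤ π) :
    Dd n (t - q * ph n) ^ 2 ≤ Dd n (t + q * ph n) ^ 2 := by
  have h2 := Dd_sq n t (q * ph n)
  have h3 := cos_al n q hn hq1 hq2
  have h4 := sin_al n q hn hq1 hq2
  have h5 := sin_nonneg_of_nonneg_of_le_pi h0 h1
  have h6 : cos t * cos (q * ph n) ≤ cos (ph n) := by
    calc cos t * cos (q * ph n) ≤ |cos t * cos (q * ph n)| := le_abs_self _
      _ = |cos t| * |cos (q * ph n)| := abs_mul _ _
      _ ≤ 1 * cos (ph n) := mul_le_mul (abs_cos_le_one t) h3 (abs_nonneg _) zero_le_one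
      _ = cos (ph n) := one_mul _
  have h7 : 0 ≤ 4 * sin t * sin (q * ph n) * (cos (ph n) - cos t * cos (q * ph n)) := by
    apply mul_nonneg (by positivity)
    linarith
  linarith

theorem Dd_sq_lt (n q : ℕ) (hn : 4 ≤ n) (hq1 : 1 ≤ q) (hq2 : q + 2 ≤ n) (t : ℝ)
    (h0 : 0 < t) (h1 : t < π) :
    Dd n (t - q * ph n) ^ 2 < Dd n (t + q * ph n) ^ 2 := by
  have h2 := Dd_sq n t (q * ph n)
  have h3 := cos_al n q hn hq1 hq2
  have h4 := sin_al n q hn hq1 hq2
  have h5 := sin_pos_of_pos_of_lt_pi h0 h1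
  have hc := cos_ph_ge n hn
  have h8 : |cos t| < 1 := by
    rw [← sq_lt_one_iff_abs_lt_one]
    have := sin_sq_add_cos_sq t
    nlinarith
  have h6 : cos t * cos (q * ph n) < cos (ph n) := by
    calc cos t * cos (q * ph n) ≤ |cos t * cos (q * ph n)| := le_abs_self _
      _ = |cos t| * |cos (q * ph n)| := abs_mul _ _
      _ ≤ |cos t| * cos (ph n) := mul_le_mul_of_nonneg_left h3 (abs_nonneg _)
      _ < 1 * cos (ph n) := mul_lt_mul_of_pos_right h8 (by linarith)
      _ = cos (ph n) := one_mul _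
  have h7 : 0 < 4 * sin t * sin (q * ph n) * (cos (ph n) - cos t * cos (q * ph n)) := by
    apply mul_pos (by positivity)
    linarith
  linarith

/-- `h1`: the curve stays in the closed upper half plane -/
theorem Y2_nonneg (n q : ℕ) (hn : 4 ≤ n) (hq1 : 1 ≤ q) (hq2 : q + 2 ≤ n) (t : ℝ)
    (h0 : 0 ≤ t) (h1 : t ≤ π) : 0 ≤ Y2 n q t := by
  have hs0 := sin_ph_pos n (by omega)
  have hp := ph_pos n (by omega)
  rcases le_or_gt |t - q * ph n| (ph n) with hm | ho
  · by_cases hcase : 2 ≤ q ∨ ph n ≤ t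
    · have := Y2_mid n q hn hq1 hq2 t hm hcase
      have h2 : 0 ≤ n ^ 2 * sin (ph n) / 4 := by positivity
      linarith
    · push Not at hcase
      have hq : q = 1 := by omega
      subst hq
      rw [Y2_eq]
      apply mul_nonneg two_pos.le
      apply sum_nonneg
      intro j hj
      rw [Nat.cast_one, one_mul]
      exact term_nonneg n j hn (mem_range.1 hj) t h0 hcase.2.le
  · have ho' : Out n q t := ⟨h0, h1, ho⟩
    have hA := ho'.Dsig hn hq1 hq2
    have hB := ho'.Ds hn hq1 hq2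
    have k1 := closedK n (by omega) (t - q * ph n)
    have k2 := closedK n (by omega) (t + q * ph n)
    rw [cos_nsig n q (by omega)] at k2
    have h2 := Dd_sq_le n q hn hq1 hq2 t h0 h1
    set D1 := Dd n (t - q * ph n) with hD1
    set D2 := Dd n (t + q * ph n) with hD2
    have h3 : 2 * D1 ^ 2 * D2 ^ 2 * Y2 n q t
        = sin (ph n) ^ 3 * (1 + cos (n * (t - q * ph n))) * (D2 ^ 2 - D1 ^ 2) := by
      unfold Y2
      linear_combination D2 ^ 2 * k1 - D1 ^ 2 * k2
    have h4 : 0 ≤ 2 * D1 ^ 2 * D2 ^ 2 * Y2 n q t := by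
      rw [h3]
      have a : 0 ≤ 1 + cos (n * (t - q * ph n)) := by linarith [neg_one_le_cos (n * (t - q * ph n))]
      have b : 0 ≤ D2 ^ 2 - D1 ^ 2 := by linarith
      positivity
    have h5 : 0 < 2 * D1 ^ 2 * D2 ^ 2 := by
      have a : D1 ≠ 0 := hB.ne
      have b : D2 ≠ 0 := hA.ne
      positivity
    exact nonneg_of_mul_nonneg_right h4 h5

/-- the middle part is strictly above the real axis -/
theorem Y2_mid_pos (n q : ℕ) (hn : 4 ≤ n) (hq1 : 1 ≤ q) (hq2 : q + 2 ≤ n) (t : ℝ)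
    (h0 : 0 < t) (hm : |t - q * ph n| ≤ ph n) : 0 < Y2 n q t := by
  have hs0 := sin_ph_pos n (by omega)
  have hp := ph_pos n (by omega)
  by_cases hcase : 2 ≤ q ∨ ph n ≤ t
  · have := Y2_mid n q hn hq1 hq2 t hm hcase
    have h2 : 0 < n ^ 2 * sin (ph n) / 4 := by positivity
    linarith
  · push Not at hcase
    have hq : q = 1 := by omega
    subst hq
    rw [Y2_eq]
    apply mul_pos two_pos
    apply sum_pos'
    · intro j hj
      rw [Nat.cast_one, one_mul]
      exact term_nonneg n j hn (mem_range.1 hj) t h0.le hcase.2.le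
    · refine ⟨1, mem_range.2 (by omega), ?_⟩
      have := term_pos n hn t h0 hcase.2.le
      simpa only [Nat.cast_one, one_mul] using this

end Pool.Agent.Zk56.UV
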