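import Pool.Agent.Zk56.UV.Topo

set_option autoImplicit false

open Polynomial Metric Set Filter Topology

namespace Pool.Agent.Zk56.UV

variable {P : ℂ[X]}

theorem im_real' (hc : ∀ z, P.eval ((starRingEnd ℂ) z) = (starRingEnd ℂ) (P.eval z)) (x : ℝ) :
    (P.eval (x : ℂ)).im = 0 := by
  have := hc x
  rw [Complex.conj_ofReal] at this
  exact Complex.conj_eq_iff_im.1 this.symm

theorem im_nonneg' (hc : ∀ z, P.eval ((starRingEnd ℂ) z) = (starRingEnd ℂ) (P.eval z))
    (h1 : ∀ t ∈ Icc (0 : ℝ) Real.pi, 0 ≤ (P.eval (ee t)).im) {z : ℂ} (hz : z ∈ Kc) :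
    0 ≤ (P.eval z).im := by
  have hb : ∀ z ∈ Kc, z ∉ Dp → 0 ≤ (P.eval z).im := by
    intro z hz hz'
    rcases boundary_cases hz with h' | ⟨t, ht, rfl⟩ | ⟨x, _, rfl⟩
    · exact absurd h' hz'
    · exact h1 t ht
    · exact (im_real' hc x).ge
  by_cases hzD : z ∈ Dp
  swap
  · exact hb z hz hzD
  have hd : DiffContOnCl ℂ (fun z => Complex.exp (Complex.I * P.eval z)) Dp := by
    apply Differentiable.diffContOnCl
    exact Complex.differentiable_exp.comp ((differentiable_const _).mul P.differentiable)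
  have hbd : Bornology.IsBounded Dp := Kc_compact.isBounded.subset Dp_sub
  have key := Complex.norm_le_of_forall_mem_frontier_norm_le (C := 1) hbd hd (by
    intro w hw
    have hw1 : w ∈ Kc := closure_Dp hw.1
    have hw2 : w ∉ Dp := by
      have := hw.2
      rwa [Dp_open.interior_eq] at this
    have := hb w hw1 hw2
    rw [Complex.norm_exp]
    simp
    exact this) (subset_closure hzD)
  rw [Complex.norm_exp] at key
  simpa using key

theorem deriv_re_nonneg (hc : ∀ z, P.eval ((starRingEnd ℂ) z) = (starRingEnd ℂ) (P.eval z))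
    (h1 : ∀ t ∈ Icc (0 : ℝ) Real.pi, 0 ≤ (P.eval (ee t)).im) (x : ℝ) (hx : x ∈ Ioo (-1 : ℝ) 1) :
    0 ≤ (P.derivative.eval (x : ℂ)).re := by
  -- derivative in the vertical direction
  have hv : HasDerivAt (fun y : ℝ => (x : ℂ) + y * Complex.I) Complex.I 0 := by
    have h := (Complex.ofRealCLM.hasDerivAt (x := (0 : ℝ))).mul_const Complex.I
    simp only [Complex.ofRealCLM_apply, Complex.ofReal_one, one_mul] at h
    exact h.const_add (x : ℂ)
  have hP : HasDerivAt (fun y : ℝ => P.eval ((x : ℂ) + y * Complex.I))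
      (P.derivative.eval (x : ℂ) * Complex.I) 0 := by
    have h0 : (x : ℂ) + ((0 : ℝ) : ℂ) * Complex.I = x := by simp
    have h2 := P.hasDerivAt (x : ℂ)
    rw [← h0] at h2
    have h3 := HasDerivAt.comp (0 : ℝ) h2 hv
    rw [h0] at h3
    exact h3
  have him : HasDerivAt (fun y : ℝ => (P.eval ((x : ℂ) + y * Complex.I)).im)
      (P.derivative.eval (x : ℂ) * Complex.I).im 0 :=
    Complex.imCLM.hasFDerivAt.comp_hasDerivAt (0 : ℝ) hP
  have hslope := him.tendsto_slope_zero_right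
  have hval : (P.derivative.eval (x : ℂ) * Complex.I).im = (P.derivative.eval (x : ℂ)).re := by
    simp
  rw [hval] at hslope
  refine ge_of_tendsto hslope ?_
  have hcont : Continuous fun y : ℝ => ‖(x : ℂ) + y * Complex.I‖ := by fun_prop
  have h2 : ∀ᶠ y : ℝ in 𝓝[>] 0, ‖(x : ℂ) + y * Complex.I‖ < 1 := by
    have h3 : ∀ᶠ y : ℝ in 𝓝 0, ‖(x : ℂ) + y * Complex.I‖ < 1 := by
      apply hcont.continuousAt.eventually_lt continuousAt_const
      simp only [Complex.ofReal_zero, zero_mul, add_zero, Complex.norm_real, Real.norm_eq_abs]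
      exact abs_lt.2 ⟨hx.1, hx.2⟩
    exact h3.filter_mono nhdsWithin_le_nhds
  filter_upwards [h2, self_mem_nhdsWithin] with y hy1 hy2
  have hy2' : (0 : ℝ) < y := hy2
  simp only [zero_add, Complex.ofReal_zero, zero_mul, add_zero, smul_eq_mul]
  rw [im_real' hc x, sub_zero]
  apply mul_nonneg (inv_nonneg.2 hy2'.le)
  apply im_nonneg' hc h1
  refine ⟨hy1.le, ?_⟩
  simp [hy2'.le]

theorem re_mono (hc : ∀ z, P.eval ((starRingEnd ℂ) z) = (starRingEnd ℂ) (P.eval z))
    (h1 : ∀ t ∈ Icc (0 : ℝ) Real.pi, 0 ≤ (P.eval (ee t)).im) :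
    MonotoneOn (fun x : ℝ => (P.eval (x : ℂ)).re) (Icc (-1 : ℝ) 1) := by
  have hd : ∀ x : ℝ, HasDerivAt (fun x : ℝ => (P.eval (x : ℂ)).re)
      (P.derivative.eval (x : ℂ)).re x := fun x => (P.hasDerivAt (x : ℂ)).real_of_complex
  apply monotoneOn_of_deriv_nonneg (convex_Icc _ _)
  · exact fun x _ => (hd x).continuousAt.continuousWithinAt
  · exact fun x _ => (hd x).differentiableAt.differentiableWithinAt
  · intro x hx
    rw [interior_Icc] at hx
    rw [(hd x).deriv]
    exact deriv_re_nonneg hc h1 x hx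

end Pool.Agent.Zk56.UV
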