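import Pool.Agent.Zk56.UV.Pair2
import Pool.Agent.Zk56.UV.Topo2

set_option autoImplicit false

open Real Finset

namespace Pool.Agent.Zk56.UV

theorem Ls_closed (n : ℕ) (hn : 0 < n) (s : ℝ) (hD : Dd n s ≠ 0) :
    2 * Ls n s = n * sin (ph n) ^ 3 * cos (n * s) * (Dd n s)⁻¹ ^ 2
      - n * sin (ph n) * (sin (ph n) ^ 2 * (Dd n s)⁻¹ ^ 2 - cos (ph n) * (Dd n s)⁻¹)
      + 2 * sin (ph n) ^ 3 * (Dd n s)⁻¹ ^ 3 * sin (n * s) * sin s := by
  have h := closedL n hn s
  have hk := Kt_closed n hn s hD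
  have hB : (Dd n s)⁻¹ * Dd n s = 1 := inv_mul_cancel₀ hD
  have hD' : Dd n s = cos s - cos (ph n) := rfl
  have h1 := sin_sq_add_cos_sq s
  have h2 := sin_sq_add_cos_sq (ph n)
  set B := (Dd n s)⁻¹
  have e1 : 2 * Ls n s = n * sin (ph n) ^ 3 * cos (n * s) * B ^ 2
      - n * sin (ph n) * (B * cos s - B ^ 2 * sin s ^ 2) + 4 * B * sin s * Kt n s := by
    linear_combination (B ^ 2) * h - (2 * Ls n s * (B * Dd n s + 1)
      + n * sin (ph n) * cos s * B - 4 * B * sin s * Kt n s) * hB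
  have e2 : B * cos s + B ^ 2 * sin s ^ 2 = sin (ph n) ^ 2 * B ^ 2 - cos (ph n) * B := by
    linear_combination (B ^ 2) * h1 - (B ^ 2) * h2
      - (B * cos s + B * cos (ph n)) * (hB) + (B ^ 2 * (cos s + cos (ph n))) * hD'
  rw [e1, hk]
  linear_combination (-(n * sin (ph n))) * e2

theorem Ms_closed (n : ℕ) (hn : 0 < n) (s : ℝ) (hD : Dd n s ≠ 0) :
    2 * Ms n s = n * sin (ph n) ^ 3 * sin (n * s) * (Dd n s)⁻¹ ^ 2
      - 2 * sin (ph n) ^ 3 * (1 + cos (n * s)) * (Dd n s)⁻¹ ^ 3 * sin s := by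
  have h := closedM n hn s
  have hk := Ks_closed n hn s hD
  have hB : (Dd n s)⁻¹ * Dd n s = 1 := inv_mul_cancel₀ hD
  set B := (Dd n s)⁻¹
  have e1 : 2 * Ms n s = n * sin (ph n) ^ 3 * sin (n * s) * B ^ 2 - 4 * B * sin s * Ks n s := by
    linear_combination (B ^ 2) * h - (2 * Ms n s * (B * Dd n s + 1)
      + 4 * B * sin s * Ks n s) * hB
  rw [e1, hk]
  ring

/-- the curve is immersed -/
theorem deriv_ne (n q : ℕ) (hn : 4 ≤ n) (hq1 : 1 ≤ q) (hq2 : q + 2 ≤ n) (t : ℝ)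
    (h0 : 0 < t) (hpi : t < π) (hL : Ls n (t + q * ph n) - Ls n (t - q * ph n) = 0)
    (hM : Ms n (t + q * ph n) - Ms n (t - q * ph n) = 0) : False := by
  have hs := sin_ph_pos n (by omega)
  have hn0 : (0 : ℝ) < n := by exact_mod_cast (show 0 < n by omega)
  have hc0 := cos_ph_ge n hn
  rcases le_or_gt |t - q * ph n| (ph n) with hm | ho
  · have := X2_deriv_neg n q hn hq1 hq2 t h0 hm
    linarith
  · have ho' : Out n q t := ⟨h0.le, hpi.le, ho⟩
    have hAB := Bv_lt_Av ho' hn hq1 hq2 h0 hpi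
    have hA0 := Av_neg ho' hn hq1 hq2
    have l1 := Ls_closed n (by omega) _ (ho'.Dsig hn hq1 hq2).ne
    have l2 := Ls_closed n (by omega) _ (ho'.Ds hn hq1 hq2).ne
    have m1 := Ms_closed n (by omega) _ (ho'.Dsig hn hq1 hq2).ne
    have m2 := Ms_closed n (by omega) _ (ho'.Ds hn hq1 hq2).ne
    rw [sin_nsig n q (by omega), cos_nsig n q (by omega)] at l1 m1
    change _ = n * sin (ph n) ^ 3 * cos (n * (t - q * ph n)) * (Av n q t) ^ 2
      - n * sin (ph n) * (sin (ph n) ^ 2 * (Av n q t) ^ 2 - cos (ph n) * (Av n q t))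
      + 2 * sin (ph n) ^ 3 * (Av n q t) ^ 3 * sin (n * (t - q * ph n)) * sin (t + q * ph n) at l1
    change _ = n * sin (ph n) ^ 3 * cos (n * (t - q * ph n)) * (Bv n q t) ^ 2
      - n * sin (ph n) * (sin (ph n) ^ 2 * (Bv n q t) ^ 2 - cos (ph n) * (Bv n q t))
      + 2 * sin (ph n) ^ 3 * (Bv n q t) ^ 3 * sin (n * (t - q * ph n)) * sin (t - q * ph n) at l2
    change _ = n * sin (ph n) ^ 3 * sin (n * (t - q * ph n)) * (Av n q t) ^ 2
      - 2 * sin (ph n) ^ 3 * (1 + cos (n * (t - q * ph n))) * (Av n q t) ^ 3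
        * sin (t + q * ph n) at m1
    change _ = n * sin (ph n) ^ 3 * sin (n * (t - q * ph n)) * (Bv n q t) ^ 2
      - 2 * sin (ph n) ^ 3 * (1 + cos (n * (t - q * ph n))) * (Bv n q t) ^ 3
        * sin (t - q * ph n) at m2
    have hSC := sin_sq_add_cos_sq (n * (t - q * ph n))
    set A := Av n q t
    set B := Bv n q t
    set S := sin (n * (t - q * ph n))
    set C := cos (n * (t - q * ph n))
    set U := A ^ 3 * sin (t + q * ph n) - B ^ 3 * sin (t - q * ph n) with hU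
    have I1 : n * sin (ph n) ^ 3 * C * (A ^ 2 - B ^ 2)
        - n * sin (ph n) * (sin (ph n) ^ 2 * (A ^ 2 - B ^ 2) - cos (ph n) * (A - B))
        + 2 * sin (ph n) ^ 3 * S * U = 0 := by
      rw [hU]
      linear_combination 2 * hL - l1 + l2
    have I2 : n * sin (ph n) ^ 3 * S * (A ^ 2 - B ^ 2)
        - 2 * sin (ph n) ^ 3 * (1 + C) * U = 0 := by
      rw [hU]
      linear_combination 2 * hM - m1 + m2
    have I3 : (1 + C) * (n * sin (ph n) * cos (ph n) * (A - B)) = 0 := by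
      linear_combination (1 + C) * I1 + S * I2
        - (n * sin (ph n) ^ 3 * (A ^ 2 - B ^ 2)) * hSC
    have hpos : 0 < n * sin (ph n) * cos (ph n) * (A - B) := by
      have : 0 < A - B := by linarith
      positivity
    have hC : C = -1 := by
      rcases mul_eq_zero.1 I3 with h | h
      · linarith
      · exact absurd h hpos.ne'
    have hS : S = 0 := by
      rw [hC] at hSC
      have : S ^ 2 = 0 := by linarith
      exact pow_eq_zero_iff two_ne_zero |>.1 this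
    rw [hC, hS] at I1
    have I4 : n * sin (ph n) * (A - B) * (cos (ph n) + 2 * sin (ph n) ^ 2 * (-(A + B))) = 0 := by
      linear_combination I1
    have hpos2 : 0 < n * sin (ph n) * (A - B) * (cos (ph n) + 2 * sin (ph n) ^ 2 * (-(A + B))) := by
      have a1 : 0 < A - B := by linarith
      have a2 : 0 < -(A + B) := by linarith
      have a3 : 0 < cos (ph n) := by linarith
      positivity
    linarith

theorem X2_one_ph (n : ℕ) : X2 n 1 (ph n) = Kt n (2 * ph n) := by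
  unfold X2
  rw [Nat.cast_one, one_mul, sub_self, ← two_mul]
  have : Kt n 0 = 0 := by
    unfold Kt
    simp
  rw [this, sub_zero]

theorem mid_out (n q : ℕ) (hn : 4 ≤ n) (hq1 : 1 ≤ q) (hq2 : q + 2 ≤ n) (t1 t2 : ℝ)
    (h0 : 0 ≤ t1) (hm : |t1 - q * ph n| ≤ ph n) (h2 : Out n q t2)
    (hX : X2 n q t1 = X2 n q t2) (hY : Y2 n q t1 = Y2 n q t2) : False := by
  by_cases hcase : 2 ≤ q ∨ ph n ≤ t1
  · have a := Y2_mid n q hn hq1 hq2 t1 hm hcase
    have b := Y2_out_lt n q hn hq1 hq2 t2 h2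
    linarith
  · push Not at hcase
    have hq : q = 1 := by omega
    subst hq
    have hp := ph_pos n (by omega)
    have hple := ph_le n hn
    have hmem1 : t1 ∈ Set.Icc (((1 : ℕ) : ℝ) * ph n - ph n) (((1 : ℕ) : ℝ) * ph n + ph n) := by
      rw [Nat.cast_one, one_mul]
      exact ⟨by linarith, by linarith [hcase.2]⟩
    have hmem2 : ph n ∈ Set.Icc (((1 : ℕ) : ℝ) * ph n - ph n) (((1 : ℕ) : ℝ) * ph n + ph n) := by
      rw [Nat.cast_one, one_mul]
      exact ⟨by linarith, by linarith⟩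
    have a := X2_anti n 1 hn hq1 hq2 hmem1 hmem2 hcase.2
    rw [X2_one_ph] at a
    have b1 := h2.h2
    have b0 := h2.h0
    have bpi := h2.h1
    rw [Nat.cast_one, one_mul] at b1
    have b2 : 2 * ph n < t2 := by
      rcases lt_abs.1 b1 with c | c <;> linarith
    have c1 := Kt_far n hn (t2 + ph n) (by linarith) (by linarith)
    have c2 := Kt_nonneg n hn (t2 - ph n) (by linarith) (by linarith)
    have c3 : X2 n 1 t2 = Kt n (t2 + ph n) - Kt n (t2 - ph n) := by
      unfold X2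
      rw [Nat.cast_one, one_mul]
    rw [hX, c3] at a
    linarith

/-- the boundary curve over `[0, π]` is injective -/
theorem curve_inj (n q : ℕ) (hn : 4 ≤ n) (hq1 : 1 ≤ q) (hq2 : q + 2 ≤ n) (t1 t2 : ℝ)
    (h1 : t1 ∈ Set.Icc 0 π) (h2 : t2 ∈ Set.Icc 0 π)
    (hX : X2 n q t1 = X2 n q t2) (hY : Y2 n q t1 = Y2 n q t2) : t1 = t2 := by
  rcases le_or_gt |t1 - q * ph n| (ph n) with m1 | o1 <;>
    rcases le_or_gt |t2 - q * ph n| (ph n) with m2 | o2
  · have a1 := abs_le.1 m1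
    have a2 := abs_le.1 m2
    exact (X2_anti n q hn hq1 hq2).injOn ⟨by linarith, by linarith⟩ ⟨by linarith, by linarith⟩ hX
  · exact (mid_out n q hn hq1 hq2 t1 t2 h1.1 m1 ⟨h2.1, h2.2, o2⟩ hX hY).elim
  · exact (mid_out n q hn hq1 hq2 t2 t1 h2.1 m2 ⟨h1.1, h1.2, o1⟩ hX.symm hY.symm).elim
  · rcases lt_trichotomy t1 t2 with h | h | h
    · exact (pair_out ⟨h1.1, h1.2, o1⟩ ⟨h2.1, h2.2, o2⟩ hn hq1 hq2 h hX hY).elim
    · exact h
    · exact (pair_out ⟨h2.1, h2.2, o2⟩ ⟨h1.1, h1.2, o1⟩ hn hq1 hq2 h hX.symm hY.symm).elim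

/-- points of contact with the real axis -/
theorem touch (n q : ℕ) (hn : 4 ≤ n) (hq1 : 1 ≤ q) (hq2 : q + 2 ≤ n) (t : ℝ)
    (h0 : 0 < t) (hpi : t < π) (hY : Y2 n q t = 0) : X2 n q t < X2 n q π ∨ X2 n q 0 < X2 n q t := by
  have hp := ph_pos n (by omega)
  obtain ⟨ha1, ha2⟩ := al_bounds n q hq1 hq2
  rcases le_or_gt |t - q * ph n| (ph n) with m | o
  · have := Y2_mid_pos n q hn hq1 hq2 t h0 m
    linarith
  · have ho : Out n q t := ⟨h0.le, hpi.le, o⟩
    have hH := Hv_pos ho hn hq1 hq2 h0 hpi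
    rw [Y2_closed ho hn hq1 hq2] at hY
    have hC : 1 + cos (n * (t - q * ph n)) = 0 := by
      rcases mul_eq_zero.1 hY with h | h
      · exact absurd h hH.ne'
      · exact h
    have hS : sin (n * (t - q * ph n)) = 0 := by
      have h := sin_sq_add_cos_sq (n * (t - q * ph n))
      have h' : cos (n * (t - q * ph n)) = -1 := by linarith
      rw [h'] at h
      have : sin (n * (t - q * ph n)) ^ 2 = 0 := by linarith
      exact pow_eq_zero_iff two_ne_zero |>.1 this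
    have hXt : X2 n q t = Ev n q t := by
      rw [X2_closed ho hn hq1 hq2, hS, mul_zero, sub_zero]
    rcases lt_abs.1 o with a | a
    · left
      have hoπ : Out n q π := by
        refine ⟨pi_pos.le, le_rfl, ?_⟩
        exact lt_of_lt_of_le (by linarith) (le_abs_self _)
      have hXπ : X2 n q π = Ev n q π := by
        rw [X2_closed hoπ hn hq1 hq2]
        have : (n : ℝ) * (π - q * ph n) = (n - q : ℕ) * π := by
          rw [Nat.cast_sub (by omega), ← ph_mul n (by omega)]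
          ring
        rw [this, sin_nat_mul_pi, mul_zero, sub_zero]
      rw [hXt, hXπ]
      exact E_lt ho hoπ hn hq1 hq2 hpi (Or.inl a)
    · right
      have ho0 : Out n q 0 := by
        refine ⟨le_rfl, pi_pos.le, ?_⟩
        exact lt_of_lt_of_le (by linarith) (neg_le_abs _)
      have hX0 : X2 n q 0 = Ev n q 0 := by
        rw [X2_closed ho0 hn hq1 hq2]
        have : (n : ℝ) * (0 - q * ph n) = -(q * π) := by
          rw [← ph_mul n (by omega)]
          ring
        rw [this, sin_neg, sin_nat_mul_pi, neg_zero, mul_zero, sub_zero]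
      rw [hXt, hX0]
      exact E_lt ho0 ho hn hq1 hq2 h0 (Or.inr (by linarith))

/-- the unnormalised polynomial -/
noncomputable def Pp (n q : ℕ) : Polynomial ℂ :=
  ∑ j ∈ range n, Polynomial.C ((wt n j * sin (j * (q * ph n)) : ℝ) : ℂ) * Polynomial.X ^ j

theorem Pp_eval (n q : ℕ) (z : ℂ) :
    (Pp n q).eval z = ∑ j ∈ range n, ((wt n j * sin (j * (q * ph n)) : ℝ) : ℂ) * z ^ j := by
  simp only [Pp, Polynomial.eval_finsetSum, Polynomial.eval_mul, Polynomial.eval_C,
    Polynomial.eval_pow, Polynomial.eval_X]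

theorem ee_eq_zz (t : ℝ) : ee t = zz t := by
  rw [ee, zz, Complex.exp_mul_I, Complex.ofReal_cos, Complex.ofReal_sin]

theorem Pp_ee (n q : ℕ) (t : ℝ) :
    (Pp n q).eval (ee t) = ((X2 n q t / 2 : ℝ) : ℂ) + ((Y2 n q t / 2 : ℝ) : ℂ) * Complex.I := by
  have h1 : X2 n q t / 2 = ∑ j ∈ range n, wt n j * sin (j * (q * ph n)) * cos (j * t) := by
    rw [X2_eq]; ring
  have h2 : Y2 n q t / 2 = ∑ j ∈ range n, wt n j * sin (j * (q * ph n)) * sin (j * t) := by
    rw [Y2_eq]; ring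
  rw [h1, h2, Pp_eval, Complex.ofReal_sum, Complex.ofReal_sum, sum_mul, ← sum_add_distrib]
  refine sum_congr rfl fun j _ => ?_
  rw [ee_eq_zz, zz_pow]
  push_cast
  ring

theorem Pp_re (n q : ℕ) (t : ℝ) : ((Pp n q).eval (ee t)).re = X2 n q t / 2 := by
  rw [Pp_ee]
  simp

theorem Pp_im (n q : ℕ) (t : ℝ) : ((Pp n q).eval (ee t)).im = Y2 n q t / 2 := by
  rw [Pp_ee]
  simp

theorem Pp_conj (n q : ℕ) (z : ℂ) :
    (Pp n q).eval ((starRingEnd ℂ) z) = (starRingEnd ℂ) ((Pp n q).eval z) := by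
  rw [Pp_eval, Pp_eval, map_sum]
  refine sum_congr rfl fun j _ => ?_
  rw [map_mul, map_pow, Complex.conj_ofReal]

theorem Pp_coeff_one (n q : ℕ) (hn : 4 ≤ n) (hq1 : 1 ≤ q) (hq2 : q + 2 ≤ n) :
    (Pp n q).coeff 1 ≠ 0 := by
  have h : (Pp n q).coeff 1 = ((wt n 1 * sin ((1 : ℕ) * (q * ph n)) : ℝ) : ℂ) := by
    unfold Pp
    rw [Polynomial.finsetSum_coeff]
    simp only [Polynomial.coeff_C_mul, Polynomial.coeff_X_pow, mul_ite, mul_one, mul_zero]
    rw [Finset.sum_ite_eq (range n) 1]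
    rw [if_pos (mem_range.2 (by omega))]
  rw [h]
  have h1 := wt_pos n 1 (by omega)
  have h2 := sin_al n q hn hq1 hq2
  rw [Nat.cast_one, one_mul]
  exact_mod_cast (mul_pos h1 h2).ne'

theorem ee_hasDerivAt (t : ℝ) : HasDerivAt ee (ee t * Complex.I) t := by
  unfold ee
  have h1 : HasDerivAt (fun t : ℝ => (t : ℂ) * Complex.I) (1 * Complex.I) t :=
    (Complex.ofRealCLM.hasDerivAt (x := t)).mul_const Complex.I
  rw [one_mul] at h1
  exact h1.cexp

theorem bd (n q : ℕ) (hn : 4 ≤ n) (hq1 : 1 ≤ q) (hq2 : q + 2 ≤ n) : Bd (Pp n q) where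
  deg := Polynomial.le_natDegree_of_ne_zero (Pp_coeff_one n q hn hq1 hq2)
  conj := Pp_conj n q
  h1 := fun t ht => by
    rw [Pp_im]
    have := Y2_nonneg n q hn hq1 hq2 t ht.1 ht.2
    linarith
  h2 := fun t ht t' ht' he => by
    have hr := congrArg Complex.re he
    have hi := congrArg Complex.im he
    rw [Pp_re, Pp_re] at hr
    rw [Pp_im, Pp_im] at hi
    exact curve_inj n q hn hq1 hq2 t' t ht' ⟨ht.1.le, ht.2.le⟩ (by linarith) (by linarith)
  h3 := fun t ht he => by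
    have hd : HasDerivAt (fun t : ℝ => (Pp n q).eval (ee t)) 0 t := by
      have h := ((Pp n q).hasDerivAt (ee t)).comp t (ee_hasDerivAt t)
      rw [he, zero_mul] at h
      exact h
    have hre : HasDerivAt (fun t : ℝ => ((Pp n q).eval (ee t)).re) (0 : ℂ).re t :=
      Complex.reCLM.hasFDerivAt.comp_hasDerivAt t hd
    have him : HasDerivAt (fun t : ℝ => ((Pp n q).eval (ee t)).im) (0 : ℂ).im t :=
      Complex.imCLM.hasFDerivAt.comp_hasDerivAt t hd
    have hre' : HasDerivAt (fun t : ℝ => ((Pp n q).eval (ee t)).re)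
        ((Ls n (t + q * ph n) - Ls n (t - q * ph n)) / 2) t := by
      have h : (fun t : ℝ => ((Pp n q).eval (ee t)).re) = fun t => X2 n q t / 2 :=
        funext fun t => Pp_re n q t
      rw [h]
      exact (hasDerivAt_X2 n q t).div_const 2
    have him' : HasDerivAt (fun t : ℝ => ((Pp n q).eval (ee t)).im)
        ((Ms n (t + q * ph n) - Ms n (t - q * ph n)) / 2) t := by
      have h : (fun t : ℝ => ((Pp n q).eval (ee t)).im) = fun t => Y2 n q t / 2 :=
        funext fun t => Pp_im n q t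
      rw [h]
      exact (hasDerivAt_Y2 n q t).div_const 2
    have e1 := hre.unique hre'
    have e2 := him.unique him'
    simp only [Complex.zero_re, Complex.zero_im] at e1 e2
    exact deriv_ne n q hn hq1 hq2 t ht.1 ht.2 (by linarith) (by linarith)
  h4 := fun t ht x hx he => by
    have hh1 : ∀ t ∈ Set.Icc (0 : ℝ) π, 0 ≤ ((Pp n q).eval (ee t)).im := fun t ht => by
      rw [Pp_im]
      have := Y2_nonneg n q hn hq1 hq2 t ht.1 ht.2
      linarith
    have hmono := re_mono (Pp_conj n q) hh1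
    have hi := congrArg Complex.im he
    have hr := congrArg Complex.re he
    rw [im_real' (Pp_conj n q) x, Pp_im] at hi
    rw [Pp_re] at hr
    have hx1 : x ∈ Set.Icc (-1 : ℝ) 1 := ⟨hx.1.le, hx.2.le⟩
    have a1 := hmono (Set.left_mem_Icc.2 (by norm_num)) hx1 hx1.1
    have a2 := hmono hx1 (Set.right_mem_Icc.2 (by norm_num)) hx1.2
    simp only at a1 a2
    have b1 : (((-1 : ℝ) : ℂ)) = ee π := by rw [ee_pi]; push_cast; rfl
    have b2 : (((1 : ℝ) : ℂ)) = ee 0 := by rw [ee_zero]; push_cast; rfl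
    rw [b1, Pp_re, hr] at a1
    rw [b2, Pp_re, hr] at a2
    rcases touch n q hn hq1 hq2 t ht.1 ht.2 (by linarith) with h | h <;> linarith

theorem main_inj (n q : ℕ) (hn : 4 ≤ n) (hq1 : 1 ≤ q) (hq2 : q + 2 ≤ n) :
    Set.InjOn (fun z => (Pp n q).eval z) (Metric.ball 0 1) := (bd n q hn hq1 hq2).injOn

end Pool.Agent.Zk56.UV
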