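import Pool.Agent.Zk56.UV.Trig

set_option autoImplicit false

open Real Finset

namespace Pool.Agent.Zk56.UV

theorem ph_pos (n : ℕ) (hn : 0 < n) : 0 < ph n := by
  unfold ph
  have : (0 : ℝ) < n := by exact_mod_cast hn
  positivity

theorem ph_le (n : ℕ) (hn : 4 ≤ n) : ph n ≤ π / 4 := by
  unfold ph
  apply div_le_div_of_nonneg_left pi_pos.le (by norm_num)
  exact_mod_cast hn

theorem cos_ph_ge (n : ℕ) (hn : 4 ≤ n) : 7 / 10 ≤ cos (ph n) := by
  have h1 : cos (π / 4) ≤ cos (ph n) :=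
    cos_le_cos_of_nonneg_of_le_pi (ph_pos n (by omega)).le (by linarith [pi_pos]) (ph_le n hn)
  rw [cos_pi_div_four] at h1
  have h2 : (14 / 10 : ℝ) ≤ √2 := by
    apply le_sqrt_of_sq_le
    norm_num
  linarith

theorem nsin_ge (n : ℕ) (hn : 4 ≤ n) : 28 / 10 ≤ n * sin (ph n) := by
  have hn0 : (0 : ℝ) < n := by exact_mod_cast (show 0 < n by omega)
  have hp := ph_pos n (by omega)
  have hle := ph_le n hn
  have hpi1 := pi_gt_d2
  have hpi2 := pi_lt_d2
  have h1 : ph n - ph n ^ 3 / 6 < sin (ph n) := sin_gt_sub_cube hp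
  have h2 : (n : ℝ) * ph n = π := ph_mul n (by omega)
  have h3 : (n : ℝ) * (ph n - ph n ^ 3 / 6) = π * (1 - ph n ^ 2 / 6) := by
    rw [← h2]; ring
  have h4 : (n : ℝ) * (ph n - ph n ^ 3 / 6) ≤ n * sin (ph n) :=
    mul_le_mul_of_nonneg_left h1.le hn0.le
  rw [h3] at h4
  have h5 : ph n ^ 2 ≤ (3.15 / 4) ^ 2 := by
    apply pow_le_pow_left₀ hp.le
    linarith
  have h6 : 3.14 * (1 - (3.15 / 4) ^ 2 / 6) ≤ π * (1 - ph n ^ 2 / 6) := by
    apply mul_le_mul hpi1.le _ (by norm_num) (by linarith)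
    linarith
  norm_num at h6
  linarith

theorem abs_sin_nat_mul (k : ℕ) (x : ℝ) : |sin (k * x)| ≤ k * |sin x| := by
  induction k with
  | zero => simp
  | succ k ih =>
    have h1 : ((k + 1 : ℕ) : ℝ) * x = k * x + x := by push_cast; ring
    rw [h1, sin_add]
    calc |sin (k * x) * cos x + cos (k * x) * sin x|
        ≤ |sin (k * x) * cos x| + |cos (k * x) * sin x| := abs_add_le _ _
      _ = |sin (k * x)| * |cos x| + |cos (k * x)| * |sin x| := by rw [abs_mul, abs_mul]
      _ ≤ |sin (k * x)| * 1 + 1 * |sin x| := by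
          gcongr
          · exact abs_cos_le_one x
          · exact abs_cos_le_one _
      _ ≤ ((k + 1 : ℕ) : ℝ) * |sin x| := by push_cast; linarith

/-- the bracket in the pairing argument -/
theorem bracket_nonneg (n j : ℕ) (hn : 4 ≤ n) (hj : 2 * j ≤ n) :
    0 ≤ 2 * j * ((n : ℝ) - j) * sin (ph n) * cos (j * ph n)
      - ((n : ℝ) - 2 * j) * cos (ph n) * sin (j * ph n) := by
  have hn0 : (0 : ℝ) < n := by exact_mod_cast (show 0 < n by omega)
  have hp := ph_pos n (by omega)
  have hs := sin_ph_pos n (by omega)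
  have hj0 : (0 : ℝ) ≤ j := Nat.cast_nonneg j
  have hj2 : (2 : ℝ) * j ≤ n := by exact_mod_cast hj
  have hpi : (n : ℝ) * ph n = π := ph_mul n (by omega)
  have hsj := sin_mul_ph_nonneg n j (by omega) (by omega)
  have hc1 := cos_le_one (ph n)
  have hc0 := cos_ph_ge n hn
  rcases le_or_gt ((j : ℝ) * ph n) (π / 3) with h | h
  · have h1 : 1 / 2 ≤ cos (j * ph n) := by
      rw [← cos_pi_div_three]
      apply cos_le_cos_of_nonneg_of_le_pi (by positivity) (by linarith [pi_pos]) h
    have h2 : sin (j * ph n) ≤ j * sin (ph n) := by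
      have := abs_sin_nat_mul j (ph n)
      rw [abs_of_nonneg hsj, abs_of_pos hs] at this
      exact this
    have h3 : ((n : ℝ) - 2 * j) * cos (ph n) * sin (j * ph n)
        ≤ ((n : ℝ) - 2 * j) * 1 * (j * sin (ph n)) := by
      apply mul_le_mul _ h2 hsj
      · apply mul_nonneg <;> linarith
      · apply mul_le_mul_of_nonneg_left hc1
        linarith
    have h4 : 2 * j * ((n : ℝ) - j) * sin (ph n) * (1 / 2)
        ≤ 2 * j * ((n : ℝ) - j) * sin (ph n) * cos (j * ph n) := by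
      apply mul_le_mul_of_nonneg_left h1
      apply mul_nonneg _ hs.le
      apply mul_nonneg <;> linarith
    have h5 : 0 ≤ (j : ℝ) * j * sin (ph n) := by positivity
    nlinarith
  · -- case B
    have hr : (0 : ℝ) ≤ n - 2 * j := by linarith
    have hr3 : (n : ℝ) - 2 * j ≤ n / 3 := by
      have : (n : ℝ) * ph n / 3 < j * ph n := by rw [hpi]; exact h
      have : (n : ℝ) / 3 < j := by
        by_contra hcon
        push Not at hcon
        have := mul_le_mul_of_nonneg_right hcon hp.le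
        linarith
      linarith
    have h1 : cos (j * ph n) = sin (((n : ℝ) - 2 * j) * ph n / 2) := by
      rw [← cos_pi_div_two_sub]
      congr 1
      rw [← hpi]
      ring
    have h2 : 2 / π * (((n : ℝ) - 2 * j) * ph n / 2) ≤ sin (((n : ℝ) - 2 * j) * ph n / 2) := by
      apply mul_le_sin
      · positivity
      · rw [← hpi]
        have : ((n : ℝ) - 2 * j) * ph n ≤ n * ph n :=
          mul_le_mul_of_nonneg_right (by linarith) hp.le
        linarith
    have h3 : 2 / π * (((n : ℝ) - 2 * j) * ph n / 2) = ((n : ℝ) - 2 * j) / n := by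
      rw [← hpi]
      field_simp
    rw [h3, ← h1] at h2
    have hns := nsin_ge n hn
    have h4 : 2 * j * ((n : ℝ) - j) * sin (ph n) * (((n : ℝ) - 2 * j) / n)
        ≤ 2 * j * ((n : ℝ) - j) * sin (ph n) * cos (j * ph n) := by
      apply mul_le_mul_of_nonneg_left h2
      apply mul_nonneg _ hs.le
      apply mul_nonneg <;> linarith
    have h5 : 4 / 9 * (n : ℝ) ^ 2 ≤ 2 * j * ((n : ℝ) - j) := by
      nlinarith
    have h6 : 4 / 9 * (n * sin (ph n)) * ((n : ℝ) - 2 * j)
        ≤ 2 * j * ((n : ℝ) - j) * sin (ph n) * (((n : ℝ) - 2 * j) / n) := by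
      have e1 : 4 / 9 * (n * sin (ph n)) * ((n : ℝ) - 2 * j)
          = (4 / 9 * (n : ℝ) ^ 2) * (sin (ph n) * (((n : ℝ) - 2 * j) / n)) := by
        field_simp
      have e2 : 2 * j * ((n : ℝ) - j) * sin (ph n) * (((n : ℝ) - 2 * j) / n)
          = (2 * j * ((n : ℝ) - j)) * (sin (ph n) * (((n : ℝ) - 2 * j) / n)) := by ring
      rw [e1, e2]
      apply mul_le_mul_of_nonneg_right h5
      positivity
    have h7 : ((n : ℝ) - 2 * j) * cos (ph n) * sin (j * ph n) ≤ ((n : ℝ) - 2 * j) * 1 * 1 := by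
      apply mul_le_mul _ (sin_le_one _) hsj
      · linarith
      · apply mul_le_mul_of_nonneg_left hc1 hr
    have h8 : ((n : ℝ) - 2 * j) ≤ 4 / 9 * (n * sin (ph n)) * ((n : ℝ) - 2 * j) := by
      have : (1 : ℝ) ≤ 4 / 9 * (n * sin (ph n)) := by linarith
      nlinarith
    linarith

theorem Ls_ph_pos (n : ℕ) (hn : 4 ≤ n) : 0 < Ls n (ph n) := by
  have hn0 : 0 < n := by omega
  have hs := sin_ph_pos n (by omega)
  set f : ℕ → ℝ := fun j => j * wt n j * cos (j * ph n) with hf
  have h1 : Ls n (ph n) = ∑ j ∈ range (n + 1), f j := by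
    rw [sum_range_succ]
    simp only [hf]
    rw [wt_n n hn0, Ls]
    ring
  have h2 : ∑ j ∈ range (n + 1), f j = ∑ j ∈ range (n + 1), f (n - j) := by
    rw [← sum_range_reflect]
    simp
  have h3 : ∀ j ∈ range (n + 1), f j + f (n - j)
      = cos (j * ph n) * (2 * j * ((n : ℝ) - j) * sin (ph n) * cos (j * ph n)
      - ((n : ℝ) - 2 * j) * cos (ph n) * sin (j * ph n)) := by
    intro j hj
    have hj' : j ≤ n := by
      have := mem_range.1 hj
      omega
    have e1 : ((n - j : ℕ) : ℝ) * ph n = π - j * ph n := by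
      rw [← ph_mul n hn0, Nat.cast_sub hj']
      ring
    simp only [hf]
    rw [wt_refl n j hn0 hj', e1, cos_pi_sub, Nat.cast_sub hj', wt]
    ring
  have h4 : ∀ j ∈ range (n + 1), 0 ≤ f j + f (n - j) := by
    intro j hj
    have hj' : j ≤ n := by
      have := mem_range.1 hj
      omega
    rcases le_total (2 * j) n with h | h
    · rw [h3 j hj]
      apply mul_nonneg _ (bracket_nonneg n j hn h)
      apply cos_nonneg_of_mem_Icc
      have hp := ph_pos n hn0
      constructor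
      · have : 0 ≤ (j : ℝ) * ph n := by positivity
        linarith [pi_pos]
      · rw [← ph_mul n hn0]
        have : (2 * j : ℝ) ≤ n := by exact_mod_cast h
        nlinarith
    · have hmem : n - j ∈ range (n + 1) := mem_range.2 (by omega)
      have e : f j + f (n - j) = f (n - j) + f (n - (n - j)) := by
        rw [Nat.sub_sub_self hj', add_comm]
      rw [e, h3 (n - j) hmem]
      apply mul_nonneg _ (bracket_nonneg n (n - j) hn (by omega))
      apply cos_nonneg_of_mem_Icc
      have hp := ph_pos n hn0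
      constructor
      · have : 0 ≤ ((n - j : ℕ) : ℝ) * ph n := by positivity
        linarith [pi_pos]
      · rw [← ph_mul n hn0]
        have : (2 * (n - j : ℕ) : ℝ) ≤ n := by
          have : 2 * (n - j) ≤ n := by omega
          exact_mod_cast this
        nlinarith
  have h5 : 0 < f 1 + f (n - 1) := by
    rw [h3 1 (mem_range.2 (by omega))]
    have e : cos (((1 : ℕ) : ℝ) * ph n) * (2 * ((1 : ℕ) : ℝ) * ((n : ℝ) - ((1 : ℕ) : ℝ)) * sin (ph n)
        * cos (((1 : ℕ) : ℝ) * ph n)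
        - ((n : ℝ) - 2 * ((1 : ℕ) : ℝ)) * cos (ph n) * sin (((1 : ℕ) : ℝ) * ph n))
        = n * sin (ph n) * cos (ph n) ^ 2 := by
      push_cast
      rw [one_mul]
      ring
    rw [e]
    have := cos_ph_ge n hn
    positivity
  have h6 : 2 * Ls n (ph n) = ∑ j ∈ range (n + 1), (f j + f (n - j)) := by
    rw [sum_add_distrib, ← h2, ← h1]
    ring
  have h7 : 0 < ∑ j ∈ range (n + 1), (f j + f (n - j)) :=
    sum_pos' h4 ⟨1, mem_range.2 (by omega), h5⟩
  linarith

/-- in the middle region -/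
theorem Ls_ge (n : ℕ) (hn : 4 ≤ n) (s : ℝ) (hs : |s| ≤ ph n) : Ls n (ph n) ≤ Ls n s := by
  have hp := ph_pos n (by omega)
  unfold Ls
  apply sum_le_sum
  intro j hj
  have hj' := mem_range.1 hj
  apply mul_le_mul_of_nonneg_left
  · rw [← cos_abs (j * s), abs_mul, Nat.abs_cast]
    apply cos_le_cos_of_nonneg_of_le_pi (by positivity)
    · rw [← ph_mul n (by omega)]
      apply mul_le_mul_of_nonneg_right _ hp.le
      exact_mod_cast hj'.le
    · exact mul_le_mul_of_nonneg_left hs (Nat.cast_nonneg j)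
  · exact mul_nonneg (Nat.cast_nonneg j) (wt_nonneg n j (by omega) hj')

theorem Dd_neg (n : ℕ) (hn : 4 ≤ n) (s : ℝ) (h1 : ph n < s) (h2 : s ≤ π) : Dd n s < 0 := by
  unfold Dd
  have := cos_lt_cos_of_nonneg_of_le_pi (ph_pos n (by omega)).le h2 h1
  linarith

theorem cos_three (n : ℕ) : cos (3 * ph n) = 4 * cos (ph n) ^ 3 - 3 * cos (ph n) :=
  cos_three_mul _

/-- bounds beyond `3 φ` -/
theorem far_bounds (n : ℕ) (hn : 4 ≤ n) (s : ℝ) (h1 : 3 * ph n ≤ s) (h2 : s ≤ π) :
    4 * cos (ph n) * sin (ph n) ^ 2 ≤ - Dd n s ∧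
    (1 - cos (ph n)) * (1 + 2 * cos (ph n)) ^ 2 ≤ 1 - cos s := by
  have hp := ph_pos n (by omega)
  have h3 : cos s ≤ cos (3 * ph n) := cos_le_cos_of_nonneg_of_le_pi (by positivity) h2 h1
  rw [cos_three] at h3
  have h4 := sin_sq_add_cos_sq (ph n)
  unfold Dd
  constructor
  · have : sin (ph n) ^ 2 = 1 - cos (ph n) ^ 2 := by linarith
    rw [this]
    linarith
  · linarith

theorem Ls_key (n : ℕ) (hn : 0 < n) (s : ℝ) :
    2 * Dd n s ^ 3 * Ls n s = sin (ph n) * (n * cos (ph n) * Dd n s ^ 2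
      - n * sin (ph n) ^ 2 * (1 - cos (n * s)) * Dd n s
      + 2 * sin (ph n) ^ 2 * sin (n * s) * sin s) := by
  have h1 := closedL n hn s
  have h2 := closedKt n hn s
  have h3 := sin_sq_add_cos_sq (ph n)
  have h4 := sin_sq_add_cos_sq s
  have h5 : Dd n s = cos s - cos (ph n) := rfl
  have h6 : 2 * Dd n s ^ 3 * Ls n s
      = Dd n s * (n * sin (ph n) ^ 3 * cos (n * s)
          - n * sin (ph n) * (Dd n s * cos s - sin s ^ 2))
        + 2 * sin s * (sin (ph n) ^ 3 * sin (n * s) - n * sin (ph n) * Dd n s * sin s) := by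
    linear_combination Dd n s * h1 + 2 * sin s * h2
  rw [h6, h5]
  linear_combination (-(n * sin (ph n) * (cos s - cos (ph n)))) * h4
    + (n * sin (ph n) * (cos s - cos (ph n))) * h3

theorem Ls_nonpos_aux (n : ℕ) (hn : 4 ≤ n) (s : ℝ) (h1 : 2 * ph n ≤ s) (h2 : s ≤ π) :
    Ls n s ≤ 0 := by
  have hp := ph_pos n (by omega)
  have hs := sin_ph_pos n (by omega)
  have hc := cos_ph_ge n hn
  have hc1 := cos_ph_lt n (by omega)
  have hD := Dd_neg n hn s (by linarith) h2
  have hsn : 0 ≤ sin s := sin_nonneg_of_nonneg_of_le_pi (by linarith) h2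
  have hn0 : (0 : ℝ) < n := by exact_mod_cast (show 0 < n by omega)
  have key := Ls_key n (by omega) s
  have hQ : 0 ≤ n * cos (ph n) * Dd n s ^ 2
      - n * sin (ph n) ^ 2 * (1 - cos (n * s)) * Dd n s
      + 2 * sin (ph n) ^ 2 * sin (n * s) * sin s := by
    have hC : 0 ≤ 1 - cos (n * s) := by linarith [cos_le_one (n * s)]
    have a1 : 0 ≤ n * cos (ph n) * Dd n s ^ 2 := by positivity
    have a2 : 0 ≤ - (n * sin (ph n) ^ 2 * (1 - cos (n * s)) * Dd n s) := by
      have : 0 ≤ n * sin (ph n) ^ 2 * (1 - cos (n * s)) := by positivity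
      nlinarith
    rcases le_total s (3 * ph n) with h3 | h3
    · have hS : 0 ≤ sin (n * s) := by
        rw [← sin_sub_two_pi]
        have e := ph_mul n (by omega)
        apply sin_nonneg_of_nonneg_of_le_pi
        · nlinarith
        · nlinarith
      have a3 : 0 ≤ 2 * sin (ph n) ^ 2 * sin (n * s) * sin s := by positivity
      linarith
    · obtain ⟨b1, b2⟩ := far_bounds n hn s h3 h2
      set E := - Dd n s with hE
      have hE0 : 0 < E := by linarith
      set θ := n * s / 2 with hθ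
      have e1 : n * s = 2 * θ := by rw [hθ]; ring
      have e2 : cos (n * s) = 1 - 2 * sin θ ^ 2 := by
        rw [e1, cos_two_mul]
        linarith [sin_sq_add_cos_sq θ]
      have e3 : sin (n * s) = 2 * sin θ * cos θ := by rw [e1, sin_two_mul]
      have hDE : Dd n s = - E := by rw [hE]; ring
      rw [e2, e3, hDE]
      have hns := nsin_ge n hn
      -- main inequality
      have m1 : sin s ^ 2 ≤ 2 * (1 - cos s) := by
        have := sin_sq_add_cos_sq s
        nlinarith [cos_le_one s, neg_one_le_cos s]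
      have m2 : 5 * (1 - cos (ph n)) ≤ 1 - cos s := by
        have : (24 / 10 : ℝ) ^ 2 ≤ (1 + 2 * cos (ph n)) ^ 2 := by
          apply pow_le_pow_left₀ (by norm_num)
          linarith
        nlinarith
      have m3 : 4 / 5 * (1 - cos s) ≤ E := by
        have : E = (1 - cos s) - (1 - cos (ph n)) := by rw [hE, Dd]; ring
        linarith
      have m4 : (7 : ℝ) ≤ (n * sin (ph n)) ^ 2 := by nlinarith
      have m5 : (34 / 100 : ℝ) ≤ cos (ph n) ^ 3 := by
        have : (7 / 10 : ℝ) ^ 3 ≤ cos (ph n) ^ 3 := pow_le_pow_left₀ (by norm_num) hc 3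
        linarith
      have m6 : 2 * sin (ph n) ^ 2 * sin s ^ 2 ≤ n ^ 2 * cos (ph n) * E ^ 3 := by
        have c1 : (4 * cos (ph n) * sin (ph n) ^ 2) ^ 2 ≤ E ^ 2 :=
          pow_le_pow_left₀ (by positivity) b1 2
        have c2 : n ^ 2 * cos (ph n) * ((4 * cos (ph n) * sin (ph n) ^ 2) ^ 2 * E)
            ≤ n ^ 2 * cos (ph n) * E ^ 3 := by
          apply mul_le_mul_of_nonneg_left _ (by positivity)
          calc (4 * cos (ph n) * sin (ph n) ^ 2) ^ 2 * E ≤ E ^ 2 * E :=
                mul_le_mul_of_nonneg_right c1 hE0.le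
            _ = E ^ 3 := by ring
        have c3 : n ^ 2 * cos (ph n) * ((4 * cos (ph n) * sin (ph n) ^ 2) ^ 2 * E)
            = sin (ph n) ^ 2 * (16 * (n * sin (ph n)) ^ 2 * cos (ph n) ^ 3 * E) := by ring
        rw [c3] at c2
        refine le_trans ?_ c2
        have c4 : (2 : ℝ) ≤ (n * sin (ph n)) ^ 2 * cos (ph n) ^ 3 := by nlinarith
        have c5 : 2 * sin s ^ 2 ≤ 16 * (n * sin (ph n)) ^ 2 * cos (ph n) ^ 3 * E := by
          have : 2 * E ≤ (n * sin (ph n)) ^ 2 * cos (ph n) ^ 3 * E :=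
            mul_le_mul_of_nonneg_right c4 hE0.le
          linarith
        calc 2 * sin (ph n) ^ 2 * sin s ^ 2 = sin (ph n) ^ 2 * (2 * sin s ^ 2) := by ring
          _ ≤ _ := mul_le_mul_of_nonneg_left c5 (by positivity)
      have m7 : 0 ≤ n * E * (n * cos (ph n) * (-E) ^ 2
          - n * sin (ph n) ^ 2 * (1 - (1 - 2 * sin θ ^ 2)) * -E
          + 2 * sin (ph n) ^ 2 * (2 * sin θ * cos θ) * sin s) := by
        have e4 : n * E * (n * cos (ph n) * (-E) ^ 2
          - n * sin (ph n) ^ 2 * (1 - (1 - 2 * sin θ ^ 2)) * -E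
          + 2 * sin (ph n) ^ 2 * (2 * sin θ * cos θ) * sin s)
          = n ^ 2 * cos (ph n) * E ^ 3
            + 2 * sin (ph n) ^ 2 * (n * E * sin θ + sin s * cos θ) ^ 2
            - 2 * sin (ph n) ^ 2 * sin s ^ 2 * cos θ ^ 2 := by ring
        rw [e4]
        have e5 : 2 * sin (ph n) ^ 2 * sin s ^ 2 * cos θ ^ 2 ≤ 2 * sin (ph n) ^ 2 * sin s ^ 2 * 1 := by
          apply mul_le_mul_of_nonneg_left _ (by positivity)
          exact cos_sq_le_one θ
        have e6 : 0 ≤ 2 * sin (ph n) ^ 2 * (n * E * sin θ + sin s * cos θ) ^ 2 := by positivity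
        linarith
      exact nonneg_of_mul_nonneg_right m7 (by positivity)
  have hk : 2 * Dd n s ^ 3 * Ls n s ≥ 0 := by
    rw [key]
    exact mul_nonneg hs.le hQ
  have hD3 : 2 * Dd n s ^ 3 < 0 := by
    have : Dd n s ^ 3 < 0 := Odd.pow_neg (by decide) hD
    linarith
  by_contra hcon
  push Not at hcon
  have := mul_neg_of_neg_of_pos hD3 hcon
  linarith

theorem Ls_refl (n : ℕ) (s : ℝ) : Ls n (2 * π - s) = Ls n s := by
  unfold Ls
  refine sum_congr rfl fun j _ => ?_
  rw [mul_sub, cos_nat_mul_two_pi_sub]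

theorem Ls_nonpos (n : ℕ) (hn : 4 ≤ n) (s : ℝ) (h1 : 2 * ph n ≤ s) (h2 : s ≤ 2 * π - 2 * ph n) :
    Ls n s ≤ 0 := by
  rcases le_total s π with h | h
  · exact Ls_nonpos_aux n hn s h1 h
  · rw [← Ls_refl]
    apply Ls_nonpos_aux n hn <;> linarith

end Pool.Agent.Zk56.UV
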