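import Pool.Agent.Zk56.UV.Ineq

set_option autoImplicit false

open Real Finset

namespace Pool.Agent.Zk56.UV

theorem Ks_neg (n : ℕ) (s : ℝ) : Ks n (-s) = Ks n s := by
  unfold Ks
  congr 1
  refine sum_congr rfl fun j _ => ?_
  rw [mul_neg, cos_neg]

theorem Ks_abs (n : ℕ) (s : ℝ) : Ks n |s| = Ks n s := by
  rcases abs_choice s with h | h <;> rw [h]
  exact Ks_neg n s

theorem Kt_neg (n : ℕ) (s : ℝ) : Kt n (-s) = - Kt n s := by
  unfold Kt
  rw [← sum_neg_distrib]
  refine sum_congr rfl fun j _ => ?_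
  rw [mul_neg, sin_neg, mul_neg]

theorem Dd_prod (n : ℕ) (s : ℝ) :
    Dd n s = - (2 * sin ((s + ph n) / 2) * sin ((s - ph n) / 2)) := by
  rw [Dd, cos_sub_cos]
  ring

theorem one_add_cos (n : ℕ) (hn : 0 < n) (s : ℝ) :
    1 + cos (n * s) = 2 * sin (n * ((s - ph n) / 2)) ^ 2 := by
  have h1 : n * s = 2 * (n * ((s - ph n) / 2)) + π := by
    rw [← ph_mul n hn]
    ring
  rw [h1, cos_add_pi, cos_two_mul, cos_sq']
  ring

theorem Ks_lt (n : ℕ) (hn : 4 ≤ n) (s : ℝ) (h1 : ph n < s) (h2 : s ≤ π - ph n) :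
    Ks n s < n ^ 2 * sin (ph n) / 4 := by
  have hp := ph_pos n (by omega)
  have hs := sin_ph_pos n (by omega)
  have hn0 : (0 : ℝ) < n := by exact_mod_cast (show 0 < n by omega)
  have hK := closedK n (by omega) s
  rw [one_add_cos n (by omega), Dd_prod] at hK
  set x := (s + ph n) / 2 with hx
  set y := (s - ph n) / 2 with hy
  have hy0 : 0 < sin y := sin_pos_of_pos_of_lt_pi (by linarith) (by linarith)
  have hx0 : sin (ph n) < sin x := by
    apply sin_lt_sin_of_lt_of_le_pi_div_two <;> linarith [pi_pos]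
  have h3 := abs_sin_nat_mul n y
  rw [abs_of_pos hy0] at h3
  have h4 : sin (n * y) ^ 2 ≤ (n * sin y) ^ 2 := by
    rw [← sq_abs (sin (n * y))]
    exact pow_le_pow_left₀ (abs_nonneg _) h3 2
  by_contra hcon
  push Not at hcon
  have h5 : sin y ^ 2 * (4 * sin x ^ 2 * Ks n s) ≤ sin y ^ 2 * (n ^ 2 * sin (ph n) ^ 3) := by
    have e1 : sin y ^ 2 * (4 * sin x ^ 2 * Ks n s) = sin (ph n) ^ 3 * sin (n * y) ^ 2 := by
      linear_combination hK / 2
    rw [e1]
    calc sin (ph n) ^ 3 * sin (n * y) ^ 2 ≤ sin (ph n) ^ 3 * (n * sin y) ^ 2 :=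
          mul_le_mul_of_nonneg_left h4 (by positivity)
      _ = _ := by ring
  have h6 : 4 * sin x ^ 2 * Ks n s ≤ n ^ 2 * sin (ph n) ^ 3 :=
    le_of_mul_le_mul_left h5 (by positivity)
  have h7 : sin (ph n) ^ 2 < sin x ^ 2 := pow_lt_pow_left₀ hx0 hs.le two_ne_zero
  have h8 : 0 < n ^ 2 * sin (ph n) := by positivity
  have h9 : 4 * sin x ^ 2 * (n ^ 2 * sin (ph n) / 4) ≤ 4 * sin x ^ 2 * Ks n s :=
    mul_le_mul_of_nonneg_left hcon (by positivity)
  nlinarith

/-- the elementary inequality `sin (l u) ≤ sin (l π / 2) sin u` -/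
theorem sin_mul_le (l u : ℝ) (hl0 : 0 ≤ l) (hl1 : l ≤ 1) (hu0 : 0 ≤ u) (hu1 : u ≤ π / 2) :
    sin (l * u) ≤ sin (l * (π / 2)) * sin u := by
  rcases hu0.eq_or_lt with rfl | hu0
  · simp
  -- auxiliary function
  have hg : ∀ v ∈ Set.Icc (0 : ℝ) (π / 2), 0 ≤ l * cos (l * v) * sin v - sin (l * v) * cos v := by
    intro v hv
    set g : ℝ → ℝ := fun v => l * cos (l * v) * sin v - sin (l * v) * cos v with hgd
    have hd : ∀ x, HasDerivAt g ((1 - l ^ 2) * sin (l * x) * sin x) x := by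
      intro x
      have h0 : HasDerivAt (fun v : ℝ => l * v) l x := by
        simpa using (hasDerivAt_id x).const_mul l
      have h1 := ((h0.cos).const_mul l).mul (hasDerivAt_sin x)
      have h2 := (h0.sin).mul (hasDerivAt_cos x)
      have h3 := h1.sub h2
      have e : (l * (-sin (l * x) * l)) * sin x + l * cos (l * x) * cos x
          - (cos (l * x) * l * cos x + sin (l * x) * -sin x)
          = (1 - l ^ 2) * sin (l * x) * sin x := by ring
      rw [← e]
      exact h3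
    have hmono : MonotoneOn g (Set.Icc 0 (π / 2)) := by
      apply monotoneOn_of_deriv_nonneg (convex_Icc _ _)
      · exact fun x _ => (hd x).continuousAt.continuousWithinAt
      · exact fun x _ => (hd x).differentiableAt.differentiableWithinAt
      · intro x hx
        rw [interior_Icc] at hx
        rw [(hd x).deriv]
        have hx0 := hx.1
        have hx1 := hx.2
        have hlx : l * x ≤ x := by nlinarith
        have a1 : 0 ≤ sin x := sin_nonneg_of_nonneg_of_le_pi hx0.le (by linarith [pi_pos])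
        have a2 : 0 ≤ sin (l * x) :=
          sin_nonneg_of_nonneg_of_le_pi (by positivity) (by linarith [pi_pos])
        have a3 : 0 ≤ 1 - l ^ 2 := by nlinarith
        positivity
    have h0 : g 0 = 0 := by simp [hgd]
    have := hmono (Set.left_mem_Icc.2 (by positivity)) hv hv.1
    rw [h0] at this
    exact this
  set r : ℝ → ℝ := fun v => sin (l * v) / sin v with hr
  have hpos : ∀ v ∈ Set.Icc u (π / 2), 0 < sin v := fun v hv =>
    sin_pos_of_pos_of_lt_pi (by linarith [hv.1]) (by linarith [hv.2, pi_pos])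
  have hd : ∀ x, 0 < sin x → HasDerivAt r ((cos (l * x) * l * sin x - sin (l * x) * cos x)
      / sin x ^ 2) x := by
    intro x hx
    have h0 : HasDerivAt (fun v : ℝ => l * v) l x := by
      simpa using (hasDerivAt_id x).const_mul l
    exact (h0.sin).div (hasDerivAt_sin x) hx.ne'
  have hmono : MonotoneOn r (Set.Icc u (π / 2)) := by
    apply monotoneOn_of_deriv_nonneg (convex_Icc _ _)
    · exact fun x hx => (hd x (hpos x hx)).continuousAt.continuousWithinAt
    · intro x hx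
      exact (hd x (hpos x (interior_subset hx))).differentiableAt.differentiableWithinAt
    · intro x hx
      have hx' := interior_subset hx
      rw [(hd x (hpos x hx')).deriv]
      apply div_nonneg _ (sq_nonneg _)
      have := hg x ⟨by linarith [hx'.1], hx'.2⟩
      linarith
  have := hmono (Set.left_mem_Icc.2 hu1) (Set.right_mem_Icc.2 hu1) hu1
  simp only [hr, sin_pi_div_two, div_one] at this
  rwa [div_le_iff₀ (hpos u (Set.left_mem_Icc.2 hu1))] at this

theorem Ks_mid_aux (n : ℕ) (hn : 4 ≤ n) (s : ℝ) (h0 : 0 ≤ s) (h1 : s ≤ ph n) :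
    cos (n * s / 2) ^ 2 * (Ks n 0 - Ks n (ph n)) ≤ Ks n s - Ks n (ph n) := by
  have hn0 : (0 : ℝ) < n := by exact_mod_cast (show 0 < n by omega)
  have hp := ph_pos n (by omega)
  have hpm := ph_mul n (by omega)
  have e1 : Ks n 0 - Ks n (ph n) = ∑ j ∈ range n, wt n j * (1 - cos (j * ph n)) := by
    unfold Ks
    rw [sub_sub_sub_cancel_right, ← sum_sub_distrib]
    refine sum_congr rfl fun j _ => ?_
    rw [mul_zero, cos_zero]
    ring
  have e2 : Ks n s - Ks n (ph n) = ∑ j ∈ range n, wt n j * (cos (j * s) - cos (j * ph n)) := by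
    unfold Ks
    rw [sub_sub_sub_cancel_right, ← sum_sub_distrib]
    refine sum_congr rfl fun j _ => ?_
    ring
  rw [e1, e2, mul_sum]
  apply sum_le_sum
  intro j hj
  have hj' := mem_range.1 hj
  have hw := wt_nonneg n j (by omega) hj'
  have hjn : (j : ℝ) / n ≤ 1 := by
    rw [div_le_one hn0]
    exact_mod_cast hj'.le
  have key := sin_mul_le ((j : ℝ) / n) (n * s / 2) (by positivity) hjn (by positivity) (by
    rw [← hpm]
    have := mul_le_mul_of_nonneg_left h1 hn0.le
    linarith)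
  have a1 : (j : ℝ) / n * (n * s / 2) = j * s / 2 := by field_simp
  have a2 : (j : ℝ) / n * (π / 2) = j * ph n / 2 := by
    rw [← hpm]
    field_simp
  rw [a1, a2] at key
  have b1 : 0 ≤ sin (j * s / 2) := by
    apply sin_nonneg_of_nonneg_of_le_pi (by positivity)
    have : (j : ℝ) * s ≤ n * ph n := by
      apply mul_le_mul _ h1 h0 hn0.le
      exact_mod_cast hj'.le
    rw [hpm] at this
    linarith [pi_pos]
  have key2 : sin (j * s / 2) ^ 2 ≤ (sin (j * ph n / 2) * sin (n * s / 2)) ^ 2 :=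
    pow_le_pow_left₀ b1 key 2
  have c1 : cos (j * s) = 1 - 2 * sin (j * s / 2) ^ 2 := by
    rw [show (j : ℝ) * s = 2 * (j * s / 2) by ring, cos_two_mul, cos_sq']
    ring_nf
  have c2 : cos (j * ph n) = 1 - 2 * sin (j * ph n / 2) ^ 2 := by
    rw [show (j : ℝ) * ph n = 2 * (j * ph n / 2) by ring, cos_two_mul, cos_sq']
    ring_nf
  have c3 : cos (n * s / 2) ^ 2 = 1 - sin (n * s / 2) ^ 2 := by rw [cos_sq']
  have e3 : cos (n * s / 2) ^ 2 * (wt n j * (1 - cos (j * ph n)))
      = wt n j * (cos (n * s / 2) ^ 2 * (1 - cos (j * ph n))) := by ring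
  rw [e3]
  apply mul_le_mul_of_nonneg_left _ hw
  rw [c1, c2, c3]
  nlinarith [key2]

theorem cos_two (n : ℕ) : cos (2 * ph n) = 2 * cos (ph n) ^ 2 - 1 := cos_two_mul _

/-- the middle part of the curve is high -/
theorem Ks_mid (n : ℕ) (hn : 4 ≤ n) (s σ : ℝ) (hs : |s| ≤ ph n) (hc : cos (n * σ) = cos (n * s))
    (hσ : (1 - cos (ph n)) * (1 + 2 * cos (ph n)) ≤ - Dd n σ) :
    n ^ 2 * sin (ph n) / 4 ≤ Ks n s - Ks n σ := by
  have hn0 : (0 : ℝ) < n := by exact_mod_cast (show 0 < n by omega)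
  have hp := ph_pos n (by omega)
  have hs0 := sin_ph_pos n (by omega)
  have hc0 := cos_ph_ge n hn
  have hc1 := cos_ph_lt n (by omega)
  have hsq := sin_sq_add_cos_sq (ph n)
  have h1 := Ks_mid_aux n hn |s| (abs_nonneg s) hs
  rw [Ks_abs] at h1
  have h2 := closedK n (by omega) σ
  have h3 : 1 + cos (n * σ) = 2 * cos (n * |s| / 2) ^ 2 := by
    have : cos (n * s) = cos (n * |s|) := by
      rw [← cos_abs (n * s), abs_mul, Nat.abs_cast]
    rw [hc, this, show (n : ℝ) * |s| = 2 * (n * |s| / 2) by ring, cos_two_mul]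
    ring_nf
  rw [h3] at h2
  have hK0 : (1 - cos (ph n)) ^ 2 * Ks n 0 = sin (ph n) ^ 3 := by
    have := closedK n (by omega) 0
    simp only [Dd, mul_zero, cos_zero] at this
    linarith
  have hKp := Ks_ph n (by omega)
  set c2 := cos (n * |s| / 2) ^ 2 with hc2
  have hc2n : 0 ≤ c2 := sq_nonneg _
  set p := cos (ph n) with hpd
  set E := - Dd n σ with hE
  have hEpos : 0 < (1 - p) * (1 + 2 * p) := by
    apply mul_pos <;> linarith
  have hE0 : 0 < E := lt_of_lt_of_le hEpos hσ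
  have hE2 : ((1 - p) * (1 + 2 * p)) ^ 2 ≤ E ^ 2 := pow_le_pow_left₀ hEpos.le hσ 2
  have hKs : E ^ 2 * Ks n σ = sin (ph n) ^ 3 * c2 := by
    rw [hE]
    linear_combination h2 / 2
  -- bound on `K(σ)`
  have hb1 : Ks n σ * ((1 - p) * (1 + 2 * p)) ^ 2 ≤ sin (ph n) ^ 3 * c2 := by
    have hKn : 0 ≤ Ks n σ := by
      have : 0 ≤ E ^ 2 * Ks n σ := by
        rw [hKs]
        positivity
      exact nonneg_of_mul_nonneg_right this (by positivity)
    calc Ks n σ * ((1 - p) * (1 + 2 * p)) ^ 2 ≤ Ks n σ * E ^ 2 :=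
          mul_le_mul_of_nonneg_left hE2 hKn
      _ = sin (ph n) ^ 3 * c2 := by rw [← hKs]; ring
  -- numerical inequality
  have hn2 : 1 - p ≤ π ^ 2 / (2 * n ^ 2) := by
    have h4 : 1 - ph n ^ 2 / 2 ≤ p := one_sub_sq_div_two_le_cos
    have h5 : ph n ^ 2 = π ^ 2 / n ^ 2 := by
      unfold ph
      rw [div_pow]
    have h6 : π ^ 2 / (2 * (n : ℝ) ^ 2) = (π ^ 2 / n ^ 2) / 2 := by
      field_simp
    rw [h6, ← h5]
    linarith
  have hpi2 : π ^ 2 < 10 := by
    have := pi_lt_d2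
    have h3 := pi_pos
    nlinarith
  have hn3 : (n : ℝ) ^ 2 * (1 - p) ≤ 5 := by
    rw [le_div_iff₀ (by positivity)] at hn2
    nlinarith
  have hnum : n ^ 2 * (1 - p) / 4 ≤ (1 + p) * (1 - 1 / (1 + 2 * p) ^ 2) := by
    have h7 : (24 / 10 : ℝ) ^ 2 ≤ (1 + 2 * p) ^ 2 := by
      apply pow_le_pow_left₀ (by norm_num)
      linarith
    have h8 : 1 / (1 + 2 * p) ^ 2 ≤ 1 / 5 := by
      apply one_div_le_one_div_of_le (by norm_num)
      norm_num at h7
      linarith
    nlinarith
  -- final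
  have hfin : Ks n σ ≤ c2 * (Ks n 0 - Ks n (ph n)) := by
    have hden : 0 < ((1 - p) * (1 + 2 * p)) ^ 2 := by positivity
    have e1 : Ks n 0 = sin (ph n) ^ 3 / (1 - p) ^ 2 := by
      rw [eq_div_iff (by
        have : 0 < 1 - p := by linarith
        positivity)]
      linarith
    have hb2 : Ks n σ ≤ c2 * (sin (ph n) ^ 3 / ((1 - p) * (1 + 2 * p)) ^ 2) := by
      have : Ks n σ ≤ (sin (ph n) ^ 3 * c2) / ((1 - p) * (1 + 2 * p)) ^ 2 := by
        rw [le_div_iff₀ hden]
        exact hb1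
      calc Ks n σ ≤ _ := this
        _ = _ := by ring
    refine hb2.trans (mul_le_mul_of_nonneg_left ?_ hc2n)
    rw [e1, hKp]
    have h1p : 0 < 1 - p := by linarith
    have h12p : 0 < 1 + 2 * p := by linarith
    have e2 : sin (ph n) ^ 3 = sin (ph n) * ((1 - p) * (1 + p)) := by
      have : sin (ph n) ^ 2 = (1 - p) * (1 + p) := by
        rw [hpd]
        linarith
      rw [pow_succ, this]
      ring
    have e3 : sin (ph n) ^ 3 / (1 - p) ^ 2 - n ^ 2 * sin (ph n) / 4
        - sin (ph n) ^ 3 / ((1 - p) * (1 + 2 * p)) ^ 2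
        = sin (ph n) / (1 - p) * ((1 + p) * (1 - 1 / (1 + 2 * p) ^ 2) - n ^ 2 * (1 - p) / 4) := by
      rw [e2]
      field_simp
      ring
    have h9 : 0 ≤ sin (ph n) / (1 - p) * ((1 + p) * (1 - 1 / (1 + 2 * p) ^ 2)
        - n ^ 2 * (1 - p) / 4) := by
      apply mul_nonneg (by positivity)
      linarith
    rw [← e3] at h9
    linarith
  rw [hKp] at h1 hfin
  linarith

end Pool.Agent.Zk56.UV
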