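import Pool.Agent.Zk56.UV.Ineq2

set_option autoImplicit false

open Real Finset

namespace Pool.Agent.Zk56.UV

theorem sin_nmul_eq (n : ℕ) (hn : 0 < n) (s : ℝ) :
    sin (n * s) = - (2 * sin (n * ((s - ph n) / 2)) * cos (n * ((s - ph n) / 2))) := by
  have h1 : n * s = 2 * (n * ((s - ph n) / 2)) + π := by
    rw [← ph_mul n hn]
    ring
  rw [h1, sin_add_pi, sin_two_mul]

theorem Kt_nonneg (n : ℕ) (hn : 4 ≤ n) (s : ℝ) (h1 : ph n < s) (h2 : s ≤ π - ph n) :
    0 ≤ Kt n s := by
  have hp := ph_pos n (by omega)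
  have hs := sin_ph_pos n (by omega)
  have hn0 : (0 : ℝ) < n := by exact_mod_cast (show 0 < n by omega)
  have hK := closedKt n (by omega) s
  have hD := Dd_neg n hn s h1 (by linarith)
  have hDp := Dd_prod n s
  rw [sin_nmul_eq n (by omega)] at hK
  set x := (s + ph n) / 2 with hx
  set y := (s - ph n) / 2 with hy
  have hy0 : 0 < sin y := sin_pos_of_pos_of_lt_pi (by linarith) (by linarith)
  have hx0 : sin (ph n) < sin x := by
    apply sin_lt_sin_of_lt_of_le_pi_div_two <;> linarith [pi_pos]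
  have hss : sin (ph n) ≤ sin s := by
    rcases le_total s (π / 2) with h | h
    · exact (sin_lt_sin_of_lt_of_le_pi_div_two (by linarith [pi_pos]) h h1).le
    · rw [← sin_pi_sub s]
      apply sin_le_sin_of_le_of_le_pi_div_two <;> linarith
  have h3 := abs_sin_nat_mul n y
  rw [abs_of_pos hy0] at h3
  have h4 : sin (n * y) * cos (n * y) ≤ n * sin y := by
    calc sin (n * y) * cos (n * y) ≤ |sin (n * y) * cos (n * y)| := le_abs_self _
      _ = |sin (n * y)| * |cos (n * y)| := abs_mul _ _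
      _ ≤ |sin (n * y)| * 1 := mul_le_mul_of_nonneg_left (abs_cos_le_one _) (abs_nonneg _)
      _ ≤ n * sin y := by linarith
  have h5 : sin (ph n) ^ 2 * (2 * (sin (n * y) * cos (n * y)))
      ≤ sin (ph n) ^ 2 * (2 * (n * sin y)) := by
    apply mul_le_mul_of_nonneg_left _ (by positivity)
    linarith
  have h6 : sin (ph n) * sin (ph n) ≤ sin x * sin s :=
    mul_le_mul hx0.le hss hs.le (by linarith)
  have h7 : sin (ph n) ^ 2 * (2 * (n * sin y)) ≤ 2 * n * sin y * (sin x * sin s) := by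
    have := mul_le_mul_of_nonneg_left h6 (show 0 ≤ 2 * n * sin y by positivity)
    calc sin (ph n) ^ 2 * (2 * (n * sin y)) = 2 * n * sin y * (sin (ph n) * sin (ph n)) := by ring
      _ ≤ _ := this
  have h8 : 0 ≤ 2 * Dd n s ^ 2 * Kt n s := by
    rw [hK]
    have e : sin (ph n) ^ 3 * -(2 * sin (n * y) * cos (n * y)) - n * sin (ph n) * Dd n s * sin s
        = sin (ph n) * (2 * n * sin y * (sin x * sin s)
          - sin (ph n) ^ 2 * (2 * (sin (n * y) * cos (n * y)))) := by
      rw [hDp]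
      ring
    rw [e]
    apply mul_nonneg hs.le
    linarith
  have h9 : 0 < 2 * Dd n s ^ 2 := by
    have : Dd n s ≠ 0 := hD.ne
    positivity
  exact nonneg_of_mul_nonneg_right h8 h9

theorem Kt_two (n : ℕ) (hn : 4 ≤ n) :
    Kt n (2 * ph n) * (1 + 2 * cos (ph n)) = n * cos (ph n) * (1 + cos (ph n)) := by
  have hp := ph_pos n (by omega)
  have hs := sin_ph_pos n (by omega)
  have hc0 := cos_ph_ge n hn
  have hc1 := cos_ph_lt n (by omega)
  have hK := closedKt n (by omega) (2 * ph n)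
  have h1 : (n : ℝ) * (2 * ph n) = 2 * π := by
    rw [← ph_mul n (by omega)]
    ring
  rw [h1, sin_two_pi, sin_two_mul] at hK
  have h2 : Dd n (2 * ph n) = -((1 - cos (ph n)) * (1 + 2 * cos (ph n))) := by
    rw [Dd, cos_two]
    ring
  rw [h2] at hK
  have hsq := sin_sq_add_cos_sq (ph n)
  have h3 : 0 < 2 * (1 - cos (ph n)) ^ 2 * (1 + 2 * cos (ph n)) := by
    have : 0 < 1 - cos (ph n) := by linarith
    have : 0 < 1 + 2 * cos (ph n) := by linarith
    positivity
  apply mul_left_cancel₀ h3.ne'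
  have h4 : sin (ph n) ^ 2 = (1 - cos (ph n)) * (1 + cos (ph n)) := by linarith
  linear_combination hK + (2 * n * (1 - cos (ph n)) * (1 + 2 * cos (ph n)) * cos (ph n)) * h4

theorem Kt_far (n : ℕ) (hn : 4 ≤ n) (σ : ℝ) (h1 : 3 * ph n ≤ σ) (h2 : σ ≤ π + ph n) :
    Kt n σ < Kt n (2 * ph n) := by
  have hp := ph_pos n (by omega)
  have hple := ph_le n hn
  have hs := sin_ph_pos n (by omega)
  have hs1 := sin_le_one (ph n)
  have hc0 := cos_ph_ge n hn
  have hc1 := cos_ph_lt n (by omega)
  have hn0 : (4 : ℝ) ≤ n := by exact_mod_cast hn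
  have hsq := sin_sq_add_cos_sq (ph n)
  have hK2 := Kt_two n hn
  have hK := closedKt n (by omega) σ
  by_contra hcon
  push Not at hcon
  have hsn : sin (ph n) ^ 3 * sin (n * σ) ≤ sin (ph n) ^ 3 * 1 :=
    mul_le_mul_of_nonneg_left (sin_le_one _) (by positivity)
  have hmain : 2 * Dd n σ ^ 2 * Kt n (2 * ph n)
      ≤ sin (ph n) ^ 3 - n * sin (ph n) * Dd n σ * sin σ := by
    have := mul_le_mul_of_nonneg_left hcon (show 0 ≤ 2 * Dd n σ ^ 2 by positivity)
    linarith
  set p := cos (ph n) with hpd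
  set E := - Dd n σ with hE
  have hDE : Dd n σ = - E := by rw [hE]; ring
  rw [hDE] at hmain
  rcases le_total σ π with h | h
  · obtain ⟨b1, b2⟩ := far_bounds n hn σ h1 h
    rw [← hE, ← hpd] at b1
    have hE0 : 0 < E := lt_of_lt_of_le (by positivity) b1
    -- ratio bound
    set δ := (σ - 3 * ph n) / 2 with hδ
    have r1 : sin (3 * ph n) - sin σ = -(2 * sin δ * cos ((σ + 3 * ph n) / 2)) := by
      have := sin_sub_sin σ (3 * ph n)
      rw [← hδ] at this
      linarith
    have r2 : sin (σ - 3 * ph n) = 2 * sin δ * cos δ := by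
      rw [← sin_two_mul, hδ]
      congr 1
      ring
    have r3 : 0 ≤ cos δ - p * cos ((σ + 3 * ph n) / 2) := by
      have c1 : cos ((σ + 3 * ph n) / 2) ≤ cos δ := by
        apply cos_le_cos_of_nonneg_of_le_pi <;> linarith
      have c2 : 0 ≤ cos δ := cos_nonneg_of_mem_Icc ⟨by linarith, by linarith⟩
      rcases le_total (cos ((σ + 3 * ph n) / 2)) 0 with c3 | c3 <;> nlinarith
    have r4 : 0 ≤ sin δ := sin_nonneg_of_nonneg_of_le_pi (by linarith) (by linarith)
    have r5 : 0 ≤ p * (sin (3 * ph n) - sin σ) + sin (σ - 3 * ph n) := by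
      rw [r1, r2]
      have := mul_nonneg r4 r3
      linarith
    have r6 : sin σ * (4 * p * sin (ph n) ^ 2) ≤ (sin (ph n) * (4 * p ^ 2 - 1)) * E := by
      have e1 : sin (3 * ph n) = sin (ph n) * (4 * p ^ 2 - 1) := by
        rw [sin_three_mul]
        linear_combination (-4 * sin (ph n)) * hsq
      have e2 := cos_three n
      rw [← hpd] at e2
      have e3 : E = p - cos σ := by rw [hE, Dd]; ring
      rw [sin_sub, e2] at r5
      rw [← e1, e3]
      have e4 : sin (ph n) ^ 2 = 1 - p ^ 2 := by linarith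
      rw [e4]
      linarith
    have r7 : sin σ * (4 * p * sin (ph n)) ≤ (4 * p ^ 2 - 1) * E := by
      apply le_of_mul_le_mul_left _ hs
      linarith
    -- combine
    have q1 : n * E ^ 2 * (8 * p ^ 2 * (1 + p))
        ≤ (1 + 2 * p) * (4 * p * sin (ph n) ^ 3 + n * E * ((4 * p ^ 2 - 1) * E)) := by
      have a1 : 2 * (-E) ^ 2 * (n * p * (1 + p)) * (4 * p)
          ≤ (sin (ph n) ^ 3 - n * sin (ph n) * -E * sin σ) * ((1 + 2 * p) * (4 * p)) := by
        have := mul_le_mul_of_nonneg_right hmain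
          (show 0 ≤ (1 + 2 * p) * (4 * p) by positivity)
        refine le_trans (le_of_eq ?_) this
        rw [← hK2]
        ring
      have a2 : n * E * (sin σ * (4 * p * sin (ph n))) ≤ n * E * ((4 * p ^ 2 - 1) * E) :=
        mul_le_mul_of_nonneg_left r7 (by positivity)
      have a3 := mul_le_mul_of_nonneg_left a2 (show 0 ≤ 1 + 2 * p by positivity)
      linarith
    have q2 : n * E ^ 2 * (4 * p ^ 2 + 2 * p + 1) ≤ (1 + 2 * p) * (4 * p * sin (ph n) ^ 3) := by
      linarith
    have q3 : (4 * p * sin (ph n) ^ 2) ^ 2 ≤ E ^ 2 := pow_le_pow_left₀ (by positivity) b1 2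
    have q4 : n * (4 * p * sin (ph n) ^ 2) ^ 2 * (4 * p ^ 2 + 2 * p + 1)
        ≤ (1 + 2 * p) * (4 * p * sin (ph n) ^ 3) := by
      refine le_trans ?_ q2
      apply mul_le_mul_of_nonneg_right _ (by positivity)
      exact mul_le_mul_of_nonneg_left q3 (by positivity)
    have q5 : (4 * p * sin (ph n) ^ 3) * (4 * p * (n * sin (ph n)) * (4 * p ^ 2 + 2 * p + 1))
        ≤ (4 * p * sin (ph n) ^ 3) * (1 + 2 * p) := by
      linarith
    have q6 := le_of_mul_le_mul_left q5 (by positivity)
    have hns := nsin_ge n hn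
    have q7 : 4 * p * (28 / 10) * (4 * p ^ 2 + 2 * p + 1)
        ≤ 4 * p * (n * sin (ph n)) * (4 * p ^ 2 + 2 * p + 1) := by
      apply mul_le_mul_of_nonneg_right _ (by positivity)
      exact mul_le_mul_of_nonneg_left hns (by positivity)
    have q8 : (49 / 100 : ℝ) ≤ p ^ 2 := by nlinarith
    have q9 : 4 * (7 / 10) * (28 / 10) * (4 * (49 / 100) + 2 * (7 / 10) + 1)
        ≤ 4 * p * (28 / 10) * (4 * p ^ 2 + 2 * p + 1) := by
      apply mul_le_mul _ _ (by norm_num) (by positivity) <;> linarith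
    norm_num at q9
    linarith
  · have e1 : sin σ ≤ 0 := by
      rw [← neg_nonneg, ← sin_sub_pi]
      apply sin_nonneg_of_nonneg_of_le_pi <;> linarith [pi_pos]
    have e2 : 2 * p ≤ E := by
      have : p ≤ cos (σ - π) := by
        apply cos_le_cos_of_nonneg_of_le_pi <;> linarith [pi_pos]
      rw [cos_sub_pi] at this
      rw [hE, Dd]
      linarith
    have e3 : 2 * (-E) ^ 2 * Kt n (2 * ph n) ≤ 1 := by
      have a1 : 0 ≤ n * sin (ph n) * -E * sin σ := by
        have : 0 ≤ n * sin (ph n) * E := by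
          have : 0 ≤ E := by linarith
          positivity
        nlinarith
      have a2 : sin (ph n) ^ 3 ≤ 1 := pow_le_one₀ hs.le hs1
      linarith
    have e4 : 1 ≤ Kt n (2 * ph n) := by
      by_contra hc
      push Not at hc
      have a1 : Kt n (2 * ph n) * (1 + 2 * p) < 1 * (1 + 2 * p) :=
        mul_lt_mul_of_pos_right hc (by linarith)
      have a2 : 4 * (7 / 10) * (1 + 7 / 10) ≤ n * p * (1 + p) := by
        apply mul_le_mul _ (by linarith) (by norm_num) (by positivity)
        apply mul_le_mul hn0 hc0 (by norm_num) (by positivity)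
      norm_num at a2
      linarith
    have e5 : (14 / 10 : ℝ) ^ 2 ≤ E ^ 2 := pow_le_pow_left₀ (by norm_num) (by linarith) 2
    have e6 : 2 * (14 / 10 : ℝ) ^ 2 * 1 ≤ 2 * E ^ 2 * Kt n (2 * ph n) := by
      apply mul_le_mul _ e4 (by norm_num) (by positivity)
      linarith
    norm_num at e6
    linarith

end Pool.Agent.Zk56.UV
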