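import Pool.Agent.Zk56.UV.Curve

set_option autoImplicit false

open Real Finset

namespace Pool.Agent.Zk56.UV

/-- inverse denominator at `t - α` -/
noncomputable def Bv (n q : ℕ) (t : ℝ) : ℝ := (Dd n (t - q * ph n))⁻¹

/-- inverse denominator at `t + α` -/
noncomputable def Av (n q : ℕ) (t : ℝ) : ℝ := (Dd n (t + q * ph n))⁻¹

/-- main term -/
noncomputable def Ev (n q : ℕ) (t : ℝ) : ℝ :=
  n * sin (ph n) / 2 * (Bv n q t * sin (t - q * ph n) - Av n q t * sin (t + q * ph n))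

/-- oscillation amplitude -/
noncomputable def Hv (n q : ℕ) (t : ℝ) : ℝ :=
  sin (ph n) ^ 3 / 2 * (Bv n q t ^ 2 - Av n q t ^ 2)

theorem Kt_closed (n : ℕ) (hn : 0 < n) (s : ℝ) (hD : Dd n s ≠ 0) :
    Kt n s = sin (ph n) ^ 3 / 2 * (Dd n s)⁻¹ ^ 2 * sin (n * s)
      - n * sin (ph n) / 2 * ((Dd n s)⁻¹ * sin s) := by
  have h := closedKt n hn s
  field_simp
  linarith

theorem Ks_closed (n : ℕ) (hn : 0 < n) (s : ℝ) (hD : Dd n s ≠ 0) :
    Ks n s = sin (ph n) ^ 3 / 2 * (Dd n s)⁻¹ ^ 2 * (1 + cos (n * s)) := by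
  have h := closedK n hn s
  field_simp
  linarith

section
variable {n q : ℕ} {t : ℝ}

theorem X2_closed (h : Out n q t) (hn : 4 ≤ n) (hq1 : 1 ≤ q) (hq2 : q + 2 ≤ n) :
    X2 n q t = Ev n q t - Hv n q t * sin (n * (t - q * ph n)) := by
  unfold X2 Ev Hv Av Bv
  rw [Kt_closed n (by omega) _ (h.Dsig hn hq1 hq2).ne, Kt_closed n (by omega) _ (h.Ds hn hq1 hq2).ne,
    sin_nsig n q (by omega)]
  ring

theorem Y2_closed (h : Out n q t) (hn : 4 ≤ n) (hq1 : 1 ≤ q) (hq2 : q + 2 ≤ n) :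
    Y2 n q t = Hv n q t * (1 + cos (n * (t - q * ph n))) := by
  unfold Y2 Hv Av Bv
  rw [Ks_closed n (by omega) _ (h.Dsig hn hq1 hq2).ne, Ks_closed n (by omega) _ (h.Ds hn hq1 hq2).ne,
    cos_nsig n q (by omega)]
  ring

theorem Av_neg (h : Out n q t) (hn : 4 ≤ n) (hq1 : 1 ≤ q) (hq2 : q + 2 ≤ n) : Av n q t < 0 :=
  inv_lt_zero.2 (h.Dsig hn hq1 hq2)

theorem Bv_neg (h : Out n q t) (hn : 4 ≤ n) (hq1 : 1 ≤ q) (hq2 : q + 2 ≤ n) : Bv n q t < 0 :=
  inv_lt_zero.2 (h.Ds hn hq1 hq2)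

theorem Bv_le_Av (h : Out n q t) (hn : 4 ≤ n) (hq1 : 1 ≤ q) (hq2 : q + 2 ≤ n) :
    Bv n q t ≤ Av n q t := by
  have h1 := Dd_sq_le n q hn hq1 hq2 t h.h0 h.h1
  have h2 := h.Dsig hn hq1 hq2
  have h3 := h.Ds hn hq1 hq2
  unfold Bv Av
  rw [inv_le_inv_of_neg h3 h2]
  nlinarith

theorem Bv_lt_Av (h : Out n q t) (hn : 4 ≤ n) (hq1 : 1 ≤ q) (hq2 : q + 2 ≤ n) (h0 : 0 < t)
    (hpi : t < π) : Bv n q t < Av n q t := by
  have h1 := Dd_sq_lt n q hn hq1 hq2 t h0 hpi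
  have h2 := h.Dsig hn hq1 hq2
  have h3 := h.Ds hn hq1 hq2
  unfold Bv Av
  rw [inv_lt_inv_of_neg h3 h2]
  nlinarith

theorem Hv_nonneg (h : Out n q t) (hn : 4 ≤ n) (hq1 : 1 ≤ q) (hq2 : q + 2 ≤ n) :
    0 ≤ Hv n q t := by
  have h1 := Bv_le_Av h hn hq1 hq2
  have h2 := Av_neg h hn hq1 hq2
  have hs := sin_ph_pos n (by omega)
  unfold Hv
  apply mul_nonneg (by positivity)
  nlinarith

theorem Hv_pos (h : Out n q t) (hn : 4 ≤ n) (hq1 : 1 ≤ q) (hq2 : q + 2 ≤ n) (h0 : 0 < t)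
    (hpi : t < π) : 0 < Hv n q t := by
  have h1 := Bv_lt_Av h hn hq1 hq2 h0 hpi
  have h2 := Av_neg h hn hq1 hq2
  have hs := sin_ph_pos n (by omega)
  unfold Hv
  apply mul_pos (by positivity)
  nlinarith

end

theorem pair_id (E1 E2 H1 H2 u1 u2 : ℝ)
    (hX : E1 - H1 * (2 * sin u1 * cos u1) = E2 - H2 * (2 * sin u2 * cos u2))
    (hY : H1 * cos u1 ^ 2 = H2 * cos u2 ^ 2) :
    (E2 - E1) ^ 2 = 4 * H1 * H2 * sin (u2 - u1) ^ 2 := by
  have h1 : E2 - E1 = 2 * (H2 * (sin u2 * cos u2) - H1 * (sin u1 * cos u1)) := by linarith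
  rw [h1, sin_sub]
  linear_combination (-(4 * (H2 * sin u2 ^ 2 - H1 * sin u1 ^ 2))) * hY

theorem g_diff (μ Δ p B1 B2 : ℝ) (h1 : B1 * (cos (μ - Δ) - p) = 1)
    (h2 : B2 * (cos (μ + Δ) - p) = 1) :
    B2 * sin (μ + Δ) - B1 * sin (μ - Δ) = 2 * sin Δ * (cos Δ - p * cos μ) * (B1 * B2) := by
  have h3 := sin_sq_add_cos_sq μ
  rw [cos_sub] at h1
  rw [cos_add] at h2
  rw [sin_add, sin_sub]
  linear_combination (-(B2 * (sin μ * cos Δ + cos μ * sin Δ))) * h1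
    + (B1 * (sin μ * cos Δ - cos μ * sin Δ)) * h2 + (2 * B1 * B2 * sin Δ * cos Δ) * h3

theorem prod_form (μ Δ p : ℝ) : (cos (μ - Δ) - p) * (cos (μ + Δ) - p)
    = cos μ ^ 2 + cos Δ ^ 2 - 1 - 2 * p * cos μ * cos Δ + p ^ 2 := by
  have h1 := sin_sq_add_cos_sq μ
  have h2 := sin_sq_add_cos_sq Δ
  rw [cos_sub, cos_add]
  linear_combination (-(sin Δ ^ 2)) * h1 - (1 - cos μ ^ 2) * h2

theorem core_same (a μ μ' Δ B1 B2 A1 A2 : ℝ) (ha0 : 0 < a) (hΔ : 0 < Δ) (haΔ : a + Δ ≤ π / 2)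
    (hμ1 : a + Δ < |μ|) (hμ2 : |μ| < π - a) (h1 : a + Δ ≤ μ') (h2 : μ' ≤ 2 * π - a - Δ)
    (hcc : cos μ' < cos μ) (hB1 : B1 * (cos (μ - Δ) - cos a) = 1)
    (hB2 : B2 * (cos (μ + Δ) - cos a) = 1) (hA1 : A1 * (cos (μ' - Δ) - cos a) = 1)
    (hA2 : A2 * (cos (μ' + Δ) - cos a) = 1) (hB : 0 < B1 * B2) (hA : 0 < A1 * A2) :
    sin a ^ 2 * (B1 * B2 - A1 * A2)
      < (cos Δ - cos a * cos μ) * (B1 * B2) - (cos Δ - cos a * cos μ') * (A1 * A2) := by
  have hpi := pi_pos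
  have hsa : 0 < sin a := sin_pos_of_pos_of_lt_pi ha0 (by linarith)
  have hpa : 0 < cos a := cos_pos_of_mem_Ioo ⟨by linarith, by linarith⟩
  have hsΔ : 0 < sin Δ := sin_pos_of_pos_of_lt_pi hΔ (by linarith)
  have hsq := sin_sq_add_cos_sq a
  -- `c < cos (a + Δ)`
  have c1 : cos μ < cos (a + Δ) := by
    rw [← cos_abs μ]
    apply cos_lt_cos_of_nonneg_of_le_pi <;> linarith
  -- `c' ≤ cos (a + Δ)`
  have c2 : cos μ' ≤ cos (a + Δ) := by
    rcases le_total μ' π with h | h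
    · apply cos_le_cos_of_nonneg_of_le_pi <;> linarith
    · rw [← cos_two_pi_sub μ']
      apply cos_le_cos_of_nonneg_of_le_pi <;> linarith
  -- `0 < p + c`
  have c3 : 0 < cos a + cos μ := by
    have : cos (π - a) < cos μ := by
      rw [← cos_abs μ]
      apply cos_lt_cos_of_nonneg_of_le_pi <;> linarith [abs_nonneg μ]
    rw [cos_pi_sub] at this
    linarith
  have c4 : sin a < sin (a + Δ) := by
    apply sin_lt_sin_of_lt_of_le_pi_div_two <;> linarith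
  rw [cos_add] at c1 c2
  rw [sin_add] at c4
  have e0 : 0 < cos Δ - cos a * cos μ - 1 + cos a ^ 2 := by
    have a1 : cos a * cos μ < cos a * (cos a * cos Δ - sin a * sin Δ) :=
      mul_lt_mul_of_pos_left c1 hpa
    have a2 : 0 < sin a * (sin a * cos Δ + cos a * sin Δ - sin a) := by
      apply mul_pos hsa
      linarith
    have a3 : cos Δ - cos a * (cos a * cos Δ - sin a * sin Δ) - 1 + cos a ^ 2
        = sin a * (sin a * cos Δ + cos a * sin Δ - sin a) := by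
      linear_combination (1 - cos Δ) * hsq
    linarith
  have e1 : 0 < cos a * cos Δ - cos μ' := by
    have := mul_pos hsa hsΔ
    linarith
  have e2 : 0 ≤ 1 - cos Δ := by linarith [cos_le_one Δ]
  have e3 : 0 ≤ 1 - cos a ^ 2 := by
    have := sq_nonneg (sin a)
    linarith
  have key : 0 < (cos μ - cos μ') * ((cos Δ - cos a * cos μ - 1 + cos a ^ 2)
      * (cos a * cos Δ - cos μ') + (1 - cos Δ) * (1 - cos a ^ 2) * (cos a + cos μ)) := by
    apply mul_pos (by linarith)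
    have := mul_pos e0 e1
    have := mul_nonneg (mul_nonneg e2 e3) c3.le
    linarith
  have hPb : (cos μ ^ 2 + cos Δ ^ 2 - 1 - 2 * cos a * cos μ * cos Δ + cos a ^ 2) * (B1 * B2)
      = 1 := by
    rw [← prod_form]
    calc (cos (μ - Δ) - cos a) * (cos (μ + Δ) - cos a) * (B1 * B2)
        = (B1 * (cos (μ - Δ) - cos a)) * (B2 * (cos (μ + Δ) - cos a)) := by ring
      _ = 1 := by rw [hB1, hB2, one_mul]
  have hPa : (cos μ' ^ 2 + cos Δ ^ 2 - 1 - 2 * cos a * cos μ' * cos Δ + cos a ^ 2) * (A1 * A2)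
      = 1 := by
    rw [← prod_form]
    calc (cos (μ' - Δ) - cos a) * (cos (μ' + Δ) - cos a) * (A1 * A2)
        = (A1 * (cos (μ' - Δ) - cos a)) * (A2 * (cos (μ' + Δ) - cos a)) := by ring
      _ = 1 := by rw [hA1, hA2, one_mul]
  have key2 := mul_pos key (mul_pos hB hA)
  have key3 : (cos μ - cos μ') * ((cos Δ - cos a * cos μ - 1 + cos a ^ 2)
      * (cos a * cos Δ - cos μ') + (1 - cos Δ) * (1 - cos a ^ 2) * (cos a + cos μ))
      * ((B1 * B2) * (A1 * A2))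
      = (cos Δ - cos a * cos μ) * (B1 * B2) - (cos Δ - cos a * cos μ') * (A1 * A2)
        - sin a ^ 2 * (B1 * B2 - A1 * A2) := by
    linear_combination ((cos Δ - cos a * cos μ - (1 - cos a ^ 2)) * (B1 * B2)) * hPa
      - ((cos Δ - cos a * cos μ' - (1 - cos a ^ 2)) * (A1 * A2)) * hPb
      + (B1 * B2 - A1 * A2) * hsq
  rw [key3] at key2
  linarith

theorem core_diff (a μ μ' Δ BB AA : ℝ) (ha0 : 0 < a) (ha : a ≤ π / 4) (hΔ : a < Δ)
    (hΔ' : Δ ≤ π / 2) (hμ : |μ| < Δ - a) (h1 : a + Δ ≤ μ') (h2 : μ' ≤ 2 * π - a - Δ)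
    (hB : 0 < BB) (hA : 0 < AA) :
    (cos Δ - cos a * cos μ) * BB - (cos Δ - cos a * cos μ') * AA
      < -(sin a * sin (Δ - a)) * BB := by
  have hpi := pi_pos
  have hsa : 0 < sin a := sin_pos_of_pos_of_lt_pi ha0 (by linarith)
  have hpa : 0 < cos a := cos_pos_of_mem_Ioo ⟨by linarith, by linarith⟩
  have hsq := sin_sq_add_cos_sq a
  have c1 : cos (Δ - a) < cos μ := by
    rw [← cos_abs μ]
    apply cos_lt_cos_of_nonneg_of_le_pi <;> linarith [abs_nonneg μ]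
  have c2 : cos μ' ≤ cos (a + Δ) := by
    rcases le_total μ' π with h | h
    · apply cos_le_cos_of_nonneg_of_le_pi <;> linarith
    · rw [← cos_two_pi_sub μ']
      apply cos_le_cos_of_nonneg_of_le_pi <;> linarith
  have c3 : 0 < sin (a + Δ) := sin_pos_of_pos_of_lt_pi (by linarith) (by linarith)
  rw [cos_sub] at c1
  rw [cos_add] at c2
  rw [sin_add] at c3
  rw [sin_sub]
  have e1 : cos Δ - cos a * cos μ < -(sin a * (sin Δ * cos a - cos Δ * sin a)) := by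
    have a1 : cos a * (cos Δ * cos a + sin Δ * sin a) < cos a * cos μ :=
      mul_lt_mul_of_pos_left c1 hpa
    have a3 : cos Δ - cos a * (cos Δ * cos a + sin Δ * sin a)
        = -(sin a * (sin Δ * cos a - cos Δ * sin a)) := by
      linear_combination (-(cos Δ)) * hsq
    linarith
  have e2 : 0 < cos Δ - cos a * cos μ' := by
    have a1 : cos a * cos μ' ≤ cos a * (cos a * cos Δ - sin a * sin Δ) :=
      mul_le_mul_of_nonneg_left c2 hpa.le
    have a2 : 0 < sin a * (sin a * cos Δ + cos a * sin Δ) := mul_pos hsa c3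
    have a3 : cos Δ - cos a * (cos a * cos Δ - sin a * sin Δ)
        = sin a * (sin a * cos Δ + cos a * sin Δ) := by
      linear_combination (-(cos Δ)) * hsq
    linarith
  have e3 := mul_lt_mul_of_pos_right e1 hB
  have e4 := mul_pos e2 hA
  linarith

end Pool.Agent.Zk56.UV
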