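import Pool.Agent.Zk56.UV.Pair

set_option autoImplicit false

open Real Finset

namespace Pool.Agent.Zk56.UV

section
variable {n q : ℕ} {t1 t2 : ℝ}

theorem Bv_mul (h : Out n q t1) (hn : 4 ≤ n) (hq1 : 1 ≤ q) (hq2 : q + 2 ≤ n) :
    Bv n q t1 * (cos (t1 - q * ph n) - cos (ph n)) = 1 :=
  inv_mul_cancel₀ (h.Ds hn hq1 hq2).ne

theorem Av_mul (h : Out n q t1) (hn : 4 ≤ n) (hq1 : 1 ≤ q) (hq2 : q + 2 ≤ n) :
    Av n q t1 * (cos (t1 + q * ph n) - cos (ph n)) = 1 :=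
  inv_mul_cancel₀ (h.Dsig hn hq1 hq2).ne

/-- the difference of the main terms -/
theorem E_diff (h1 : Out n q t1) (h2 : Out n q t2) (hn : 4 ≤ n) (hq1 : 1 ≤ q)
    (hq2 : q + 2 ≤ n) :
    Ev n q t2 - Ev n q t1 = n * sin (ph n) * sin ((t2 - t1) / 2)
      * ((cos ((t2 - t1) / 2) - cos (ph n) * cos ((t1 + t2) / 2 - q * ph n))
          * (Bv n q t1 * Bv n q t2)
        - (cos ((t2 - t1) / 2) - cos (ph n) * cos ((t1 + t2) / 2 + q * ph n))
          * (Av n q t1 * Av n q t2)) := by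
  have b1 := Bv_mul h1 hn hq1 hq2
  have b2 := Bv_mul h2 hn hq1 hq2
  have a1 := Av_mul h1 hn hq1 hq2
  have a2 := Av_mul h2 hn hq1 hq2
  have e1 : t1 - q * ph n = ((t1 + t2) / 2 - q * ph n) - (t2 - t1) / 2 := by ring
  have e2 : t2 - q * ph n = ((t1 + t2) / 2 - q * ph n) + (t2 - t1) / 2 := by ring
  have e3 : t1 + q * ph n = ((t1 + t2) / 2 + q * ph n) - (t2 - t1) / 2 := by ring
  have e4 : t2 + q * ph n = ((t1 + t2) / 2 + q * ph n) + (t2 - t1) / 2 := by ring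
  have g1 := g_diff ((t1 + t2) / 2 - q * ph n) ((t2 - t1) / 2) (cos (ph n)) (Bv n q t1) (Bv n q t2)
    (by rw [← e1]; exact b1) (by rw [← e2]; exact b2)
  have g2 := g_diff ((t1 + t2) / 2 + q * ph n) ((t2 - t1) / 2) (cos (ph n)) (Av n q t1) (Av n q t2)
    (by rw [← e3]; exact a1) (by rw [← e4]; exact a2)
  rw [← e1, ← e2] at g1
  rw [← e3, ← e4] at g2
  unfold Ev
  linear_combination (n * sin (ph n) / 2) * g1 - (n * sin (ph n) / 2) * g2

/-- quantitative growth of the main term on one side -/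
theorem E_same (h1 : Out n q t1) (h2 : Out n q t2) (hn : 4 ≤ n) (hq1 : 1 ≤ q)
    (hq2 : q + 2 ≤ n) (ht : t1 < t2)
    (hside : ph n < t1 - q * ph n ∨ t2 - q * ph n < - ph n) :
    n * sin (ph n) * sin ((t2 - t1) / 2)
      * (sin (ph n) ^ 2 * (Bv n q t1 * Bv n q t2 - Av n q t1 * Av n q t2))
      < Ev n q t2 - Ev n q t1 := by
  have hp := ph_pos n (by omega)
  have hple := ph_le n hn
  have hpi := pi_pos
  have hs := sin_ph_pos n (by omega)
  obtain ⟨ha1, ha2⟩ := al_bounds n q hq1 hq2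
  have h10 := h1.h0
  have h11 := h1.h1
  have h20 := h2.h0
  have h21 := h2.h1
  rw [E_diff h1 h2 hn hq1 hq2]
  have hΔ : 0 < sin ((t2 - t1) / 2) := sin_pos_of_pos_of_lt_pi (by linarith) (by linarith)
  have hn0 : (0 : ℝ) < n := by exact_mod_cast (show 0 < n by omega)
  apply mul_lt_mul_of_pos_left _ (by positivity)
  have e1 : t1 - q * ph n = ((t1 + t2) / 2 - q * ph n) - (t2 - t1) / 2 := by ring
  have e2 : t2 - q * ph n = ((t1 + t2) / 2 - q * ph n) + (t2 - t1) / 2 := by ring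
  have e3 : t1 + q * ph n = ((t1 + t2) / 2 + q * ph n) - (t2 - t1) / 2 := by ring
  have e4 : t2 + q * ph n = ((t1 + t2) / 2 + q * ph n) + (t2 - t1) / 2 := by ring
  have s1 := h1.sig hn hq1 hq2
  have s2 := h2.sig hn hq1 hq2
  have hBB : 0 < Bv n q t1 * Bv n q t2 :=
    mul_pos_of_neg_of_neg (Bv_neg h1 hn hq1 hq2) (Bv_neg h2 hn hq1 hq2)
  have hAA : 0 < Av n q t1 * Av n q t2 :=
    mul_pos_of_neg_of_neg (Av_neg h1 hn hq1 hq2) (Av_neg h2 hn hq1 hq2)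
  have hcc : cos ((t1 + t2) / 2 + q * ph n) < cos ((t1 + t2) / 2 - q * ph n) := by
    have m1 : 0 < sin ((t1 + t2) / 2) := sin_pos_of_pos_of_lt_pi (by linarith) (by linarith)
    have m2 := sin_al n q hn hq1 hq2
    have := mul_pos m1 m2
    rw [cos_add, cos_sub]
    linarith
  apply core_same (ph n) _ _ ((t2 - t1) / 2) _ _ _ _ hp (by linarith) _ _ _ _ _ hcc
    (by rw [← e1]; exact Bv_mul h1 hn hq1 hq2) (by rw [← e2]; exact Bv_mul h2 hn hq1 hq2)
    (by rw [← e3]; exact Av_mul h1 hn hq1 hq2) (by rw [← e4]; exact Av_mul h2 hn hq1 hq2)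
    hBB hAA
  · rcases hside with hc | hc <;> linarith
  · rcases hside with hc | hc
    · exact lt_of_lt_of_le (by linarith) (le_abs_self _)
    · exact lt_of_lt_of_le (by linarith) (neg_le_abs _)
  · rw [abs_lt]
    rcases hside with hc | hc <;> constructor <;> linarith
  · linarith [s1.1]
  · linarith [s2.2]

theorem prod_mono (h1 : Out n q t1) (h2 : Out n q t2) (hn : 4 ≤ n) (hq1 : 1 ≤ q)
    (hq2 : q + 2 ≤ n) : 0 ≤ Bv n q t1 * Bv n q t2 - Av n q t1 * Av n q t2 := by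
  have b1 := Bv_le_Av h1 hn hq1 hq2
  have b2 := Bv_le_Av h2 hn hq1 hq2
  have a1 := Av_neg h1 hn hq1 hq2
  have a2 := Av_neg h2 hn hq1 hq2
  nlinarith

theorem E_lt (h1 : Out n q t1) (h2 : Out n q t2) (hn : 4 ≤ n) (hq1 : 1 ≤ q)
    (hq2 : q + 2 ≤ n) (ht : t1 < t2)
    (hside : ph n < t1 - q * ph n ∨ t2 - q * ph n < - ph n) :
    Ev n q t1 < Ev n q t2 := by
  have h := E_same h1 h2 hn hq1 hq2 ht hside
  have hm := prod_mono h1 h2 hn hq1 hq2
  have hs := sin_ph_pos n (by omega)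
  have h10 := h1.h0
  have h21 := h2.h1
  have hΔ : 0 < sin ((t2 - t1) / 2) :=
    sin_pos_of_pos_of_lt_pi (by linarith) (by linarith [pi_pos])
  have : 0 ≤ n * sin (ph n) * sin ((t2 - t1) / 2)
      * (sin (ph n) ^ 2 * (Bv n q t1 * Bv n q t2 - Av n q t1 * Av n q t2)) := by positivity
  linarith

/-- equality of the curve at two outer points gives a quadratic relation -/
theorem pair_eq (h1 : Out n q t1) (h2 : Out n q t2) (hn : 4 ≤ n) (hq1 : 1 ≤ q)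
    (hq2 : q + 2 ≤ n) (hX : X2 n q t1 = X2 n q t2) (hY : Y2 n q t1 = Y2 n q t2) :
    (Ev n q t2 - Ev n q t1) ^ 2
      = 4 * Hv n q t1 * Hv n q t2 * sin (n * ((t2 - t1) / 2)) ^ 2 := by
  rw [X2_closed h1 hn hq1 hq2, X2_closed h2 hn hq1 hq2] at hX
  rw [Y2_closed h1 hn hq1 hq2, Y2_closed h2 hn hq1 hq2] at hY
  have e1 : n * (t1 - q * ph n) = 2 * (n * (t1 - q * ph n) / 2) := by ring
  have e2 : n * (t2 - q * ph n) = 2 * (n * (t2 - q * ph n) / 2) := by ring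
  rw [e1, e2, sin_two_mul, sin_two_mul] at hX
  rw [e1, e2, cos_two_mul, cos_two_mul] at hY
  have h := pair_id (Ev n q t1) (Ev n q t2) (Hv n q t1) (Hv n q t2)
    (n * (t1 - q * ph n) / 2) (n * (t2 - q * ph n) / 2) hX (by linarith)
  rw [h]
  congr 3
  ring

theorem sin_sq_nmul (k : ℕ) (x : ℝ) : sin (k * x) ^ 2 ≤ (k * sin x) ^ 2 := by
  have h := abs_sin_nat_mul k x
  have h2 : (k : ℝ) * |sin x| = |k * sin x| := by rw [abs_mul, Nat.abs_cast]
  rw [h2] at h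
  exact sq_le_sq.2 h

theorem pair_same (h1 : Out n q t1) (h2 : Out n q t2) (hn : 4 ≤ n) (hq1 : 1 ≤ q)
    (hq2 : q + 2 ≤ n) (ht : t1 < t2)
    (hside : ph n < t1 - q * ph n ∨ t2 - q * ph n < - ph n)
    (hX : X2 n q t1 = X2 n q t2) (hY : Y2 n q t1 = Y2 n q t2) : False := by
  have h := E_same h1 h2 hn hq1 hq2 ht hside
  have hm := prod_mono h1 h2 hn hq1 hq2
  have hs := sin_ph_pos n (by omega)
  have hn0 : (0 : ℝ) < n := by exact_mod_cast (show 0 < n by omega)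
  have h10 := h1.h0
  have h21 := h2.h1
  have hΔ : 0 < sin ((t2 - t1) / 2) :=
    sin_pos_of_pos_of_lt_pi (by linarith) (by linarith [pi_pos])
  have hq := pair_eq h1 h2 hn hq1 hq2 hX hY
  have hsn := sin_sq_nmul n ((t2 - t1) / 2)
  set B1 := Bv n q t1
  set B2 := Bv n q t2
  set A1 := Av n q t1
  set A2 := Av n q t2
  set S := sin ((t2 - t1) / 2)
  set T := sin (n * ((t2 - t1) / 2))
  have hH : 4 * Hv n q t1 * Hv n q t2 = sin (ph n) ^ 6 * ((B1 ^ 2 - A1 ^ 2) * (B2 ^ 2 - A2 ^ 2)) := by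
    unfold Hv
    ring
  have hAcz : (B1 ^ 2 - A1 ^ 2) * (B2 ^ 2 - A2 ^ 2) ≤ (B1 * B2 - A1 * A2) ^ 2 := by
    nlinarith [sq_nonneg (B1 * A2 - A1 * B2)]
  have h3 : 4 * Hv n q t1 * Hv n q t2 * T ^ 2
      ≤ sin (ph n) ^ 6 * (B1 * B2 - A1 * A2) ^ 2 * (n * S) ^ 2 := by
    rw [hH]
    apply mul_le_mul _ hsn (sq_nonneg _) (by positivity)
    exact mul_le_mul_of_nonneg_left hAcz (by positivity)
  have h4 : (n * sin (ph n) * S * (sin (ph n) ^ 2 * (B1 * B2 - A1 * A2))) ^ 2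
      < (Ev n q t2 - Ev n q t1) ^ 2 := by
    apply pow_lt_pow_left₀ h _ two_ne_zero
    positivity
  have h5 : (n * sin (ph n) * S * (sin (ph n) ^ 2 * (B1 * B2 - A1 * A2))) ^ 2
      = sin (ph n) ^ 6 * (B1 * B2 - A1 * A2) ^ 2 * (n * S) ^ 2 := by ring
  rw [h5, hq] at h4
  linarith

theorem pair_diff (h1 : Out n q t1) (h2 : Out n q t2) (hn : 4 ≤ n) (hq1 : 1 ≤ q)
    (hq2 : q + 2 ≤ n) (hs1 : t1 - q * ph n < - ph n) (hs2 : ph n < t2 - q * ph n)
    (hX : X2 n q t1 = X2 n q t2) (hY : Y2 n q t1 = Y2 n q t2) : False := by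
  have hp := ph_pos n (by omega)
  have hple := ph_le n hn
  have hpi := pi_pos
  have hs := sin_ph_pos n (by omega)
  have hn0 : (0 : ℝ) < n := by exact_mod_cast (show 0 < n by omega)
  obtain ⟨ha1, ha2⟩ := al_bounds n q hq1 hq2
  have h10 := h1.h0
  have h11 := h1.h1
  have h20 := h2.h0
  have h21 := h2.h1
  have s1 := h1.sig hn hq1 hq2
  have s2 := h2.sig hn hq1 hq2
  have hBB : 0 < Bv n q t1 * Bv n q t2 :=
    mul_pos_of_neg_of_neg (Bv_neg h1 hn hq1 hq2) (Bv_neg h2 hn hq1 hq2)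
  have hAA : 0 < Av n q t1 * Av n q t2 :=
    mul_pos_of_neg_of_neg (Av_neg h1 hn hq1 hq2) (Av_neg h2 hn hq1 hq2)
  have hE := E_diff h1 h2 hn hq1 hq2
  have hq := pair_eq h1 h2 hn hq1 hq2 hX hY
  have hcore := core_diff (ph n) ((t1 + t2) / 2 - q * ph n) ((t1 + t2) / 2 + q * ph n)
    ((t2 - t1) / 2) _ _ hp hple (by linarith) (by linarith)
    (by rw [abs_lt]; constructor <;> linarith) (by linarith [s1.1]) (by linarith [s2.2]) hBB hAA
  have hsΔ : sin (ph n) ≤ sin ((t2 - t1) / 2) := by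
    apply sin_le_sin_of_le_of_le_pi_div_two <;> linarith
  have hsd : 0 < sin ((t2 - t1) / 2 - ph n) := by
    apply sin_pos_of_pos_of_lt_pi <;> linarith
  have hsn := sin_sq_nmul n ((t2 - t1) / 2 - ph n)
  have hsn' : sin (n * ((t2 - t1) / 2 - ph n)) = - sin (n * ((t2 - t1) / 2)) := by
    rw [mul_sub, ph_mul n (by omega), sin_sub_pi]
  rw [hsn', neg_sq] at hsn
  have b1 := Bv_le_Av h1 hn hq1 hq2
  have b2 := Bv_le_Av h2 hn hq1 hq2
  have a1 := Av_neg h1 hn hq1 hq2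
  have a2 := Av_neg h2 hn hq1 hq2
  set W := (cos ((t2 - t1) / 2) - cos (ph n) * cos ((t1 + t2) / 2 - q * ph n))
          * (Bv n q t1 * Bv n q t2)
        - (cos ((t2 - t1) / 2) - cos (ph n) * cos ((t1 + t2) / 2 + q * ph n))
          * (Av n q t1 * Av n q t2) with hW
  set B1 := Bv n q t1
  set B2 := Bv n q t2
  set A1 := Av n q t1
  set A2 := Av n q t2
  set S := sin ((t2 - t1) / 2)
  set T := sin (n * ((t2 - t1) / 2))
  set R := sin ((t2 - t1) / 2 - ph n)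
  have hH : 4 * Hv n q t1 * Hv n q t2 = sin (ph n) ^ 6 * ((B1 ^ 2 - A1 ^ 2) * (B2 ^ 2 - A2 ^ 2)) := by
    unfold Hv
    ring
  have hAcz : (B1 ^ 2 - A1 ^ 2) * (B2 ^ 2 - A2 ^ 2) ≤ (B1 * B2) ^ 2 := by
    have c1 : 0 ≤ B2 ^ 2 - A2 ^ 2 := by nlinarith
    calc (B1 ^ 2 - A1 ^ 2) * (B2 ^ 2 - A2 ^ 2) ≤ B1 ^ 2 * (B2 ^ 2 - A2 ^ 2) := by
          apply mul_le_mul_of_nonneg_right _ c1
          nlinarith
      _ ≤ B1 ^ 2 * B2 ^ 2 := by
          apply mul_le_mul_of_nonneg_left _ (sq_nonneg _)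
          nlinarith
      _ = (B1 * B2) ^ 2 := by ring
  have h3 : 4 * Hv n q t1 * Hv n q t2 * T ^ 2
      ≤ sin (ph n) ^ 6 * (B1 * B2) ^ 2 * (n * R) ^ 2 := by
    rw [hH]
    apply mul_le_mul _ hsn (sq_nonneg _) (by positivity)
    exact mul_le_mul_of_nonneg_left hAcz (by positivity)
  have h6 : n * sin (ph n) * S * (sin (ph n) * R * (B1 * B2)) < -(Ev n q t2 - Ev n q t1) := by
    rw [hE]
    have hpos : 0 < n * sin (ph n) * S := by
      have : 0 < S := lt_of_lt_of_le hs hsΔ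
      positivity
    have := mul_lt_mul_of_pos_left hcore hpos
    linarith
  have h7 : n * sin (ph n) * sin (ph n) * (sin (ph n) * R * (B1 * B2))
      ≤ n * sin (ph n) * S * (sin (ph n) * R * (B1 * B2)) := by
    apply mul_le_mul_of_nonneg_right _ (by positivity)
    exact mul_le_mul_of_nonneg_left hsΔ (by positivity)
  have h8 : n * sin (ph n) * sin (ph n) * (sin (ph n) * R * (B1 * B2))
      < -(Ev n q t2 - Ev n q t1) := lt_of_le_of_lt h7 h6
  have h4 : (n * sin (ph n) * sin (ph n) * (sin (ph n) * R * (B1 * B2))) ^ 2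
      < (-(Ev n q t2 - Ev n q t1)) ^ 2 := by
    apply pow_lt_pow_left₀ h8 _ two_ne_zero
    positivity
  have h5 : (n * sin (ph n) * sin (ph n) * (sin (ph n) * R * (B1 * B2))) ^ 2
      = sin (ph n) ^ 6 * (B1 * B2) ^ 2 * (n * R) ^ 2 := by ring
  rw [h5, neg_sq, hq] at h4
  linarith

/-- two distinct outer points have distinct images -/
theorem pair_out (h1 : Out n q t1) (h2 : Out n q t2) (hn : 4 ≤ n) (hq1 : 1 ≤ q)
    (hq2 : q + 2 ≤ n) (ht : t1 < t2)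
    (hX : X2 n q t1 = X2 n q t2) (hY : Y2 n q t1 = Y2 n q t2) : False := by
  rcases lt_abs.1 h1.h2 with a | a
  · exact pair_same h1 h2 hn hq1 hq2 ht (Or.inl a) hX hY
  · rcases lt_abs.1 h2.h2 with b | b
    · exact pair_diff h1 h2 hn hq1 hq2 (by linarith) b hX hY
    · exact pair_same h1 h2 hn hq1 hq2 ht (Or.inr (by linarith)) hX hY

end

end Pool.Agent.Zk56.UV
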