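import Mathlib

set_option autoImplicit false

open Polynomial Metric Set Filter Topology

namespace Pool.Agent.Zk56.UV

/-- two-variable difference quotient of a polynomial -/
noncomputable def dq (P : ℂ[X]) (z w : ℂ) : ℂ :=
  ∑ j ∈ Finset.range (P.natDegree + 1),
    P.coeff j * ∑ i ∈ Finset.range j, z ^ i * w ^ (j - 1 - i)

theorem dq_mul (P : ℂ[X]) (z w : ℂ) : dq P z w * (z - w) = P.eval z - P.eval w := by
  rw [dq, Finset.sum_mul, Polynomial.eval_eq_sum_range, Polynomial.eval_eq_sum_range,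
    ← Finset.sum_sub_distrib]
  refine Finset.sum_congr rfl fun j _ => ?_
  rw [mul_assoc, geom_sum₂_mul]
  ring

theorem dq_diag (P : ℂ[X]) (w : ℂ) : dq P w w = P.derivative.eval w := by
  rw [dq, Polynomial.derivative_eval, Polynomial.sum_over_range _ (by simp)]
  refine Finset.sum_congr rfl fun j _ => ?_
  have : ∑ i ∈ Finset.range j, w ^ i * w ^ (j - 1 - i) = ∑ i ∈ Finset.range j, w ^ (j - 1) := by
    refine Finset.sum_congr rfl fun i hi => ?_
    rw [← pow_add]
    congr 1
    have := Finset.mem_range.1 hi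
    omega
  rw [this]
  simp [mul_assoc]

theorem dq_comm (P : ℂ[X]) (z w : ℂ) : dq P z w = dq P w z := by
  rw [dq, dq]
  refine Finset.sum_congr rfl fun j _ => ?_
  congr 1
  rw [← Finset.sum_range_reflect]
  refine Finset.sum_congr rfl fun i hi => ?_
  have := Finset.mem_range.1 hi
  rw [mul_comm]
  congr 2
  omega

theorem dq_continuous (P : ℂ[X]) : Continuous fun x : ℂ × ℂ => dq P x.1 x.2 := by
  unfold dq
  fun_prop

theorem eq_of_dq (P : ℂ[X]) {z w : ℂ} (h : dq P z w = 0) : P.eval z = P.eval w := by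
  have := dq_mul P z w
  rw [h, zero_mul] at this
  exact (sub_eq_zero.1 this.symm)

theorem dq_of_ne (P : ℂ[X]) {z w : ℂ} (h : P.eval z = P.eval w) (hne : z ≠ w) : dq P z w = 0 := by
  have := dq_mul P z w
  rw [h, sub_self] at this
  rcases mul_eq_zero.1 this with h1 | h1
  · exact h1
  · exact absurd (sub_eq_zero.1 h1) hne

/-- the polynomial `dq P · w` -/
noncomputable def dqP (P : ℂ[X]) (w : ℂ) : ℂ[X] :=
  ∑ j ∈ Finset.range (P.natDegree + 1),
    C (P.coeff j) * ∑ i ∈ Finset.range j, X ^ i * (C w) ^ (j - 1 - i)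

theorem dqP_eval (P : ℂ[X]) (z w : ℂ) : (dqP P w).eval z = dq P z w := by
  simp [dqP, dq, Polynomial.eval_finsetSum]

theorem dqP_mul (P : ℂ[X]) (w : ℂ) : dqP P w * (X - C w) = P - C (P.eval w) := by
  rw [dqP, Finset.sum_mul]
  conv_rhs => rw [P.as_sum_range_C_mul_X_pow]
  rw [Polynomial.eval_finsetSum, map_sum, ← Finset.sum_sub_distrib]
  refine Finset.sum_congr rfl fun j _ => ?_
  rw [mul_assoc, geom_sum₂_mul]
  simp
  ring

theorem dqP_natDegree (P : ℂ[X]) (hP : 1 ≤ P.natDegree) (w : ℂ) :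
    (dqP P w).natDegree + 1 = P.natDegree ∧ (dqP P w).leadingCoeff = P.leadingCoeff := by
  have h := dqP_mul P w
  have h0 : dqP P w ≠ 0 := by
    intro h0
    rw [h0, zero_mul] at h
    have : P = C (P.eval w) := (sub_eq_zero.1 h.symm)
    rw [this, natDegree_C] at hP
    omega
  have h1 : (P - C (P.eval w)).natDegree = P.natDegree := natDegree_sub_C
  have h2 : (P - C (P.eval w)).leadingCoeff = P.leadingCoeff := by
    rw [leadingCoeff, leadingCoeff, h1, coeff_sub, coeff_C, if_neg (by omega), sub_zero]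
  constructor
  · rw [← h1, ← h, natDegree_mul h0 (X_sub_C_ne_zero w), natDegree_X_sub_C]
  · rw [← h2, ← h, leadingCoeff_mul, leadingCoeff_X_sub_C, mul_one]

theorem root_near (p : ℂ[X]) (z : ℂ) (ε : ℝ) (hε : 0 < ε)
    (h : ‖p.eval z‖ < ‖p.leadingCoeff‖ * ε ^ p.natDegree) : ∃ r, p.eval r = 0 ∧ ‖z - r‖ < ε := by
  by_contra hcon
  push Not at hcon
  have hp0 : p ≠ 0 := by
    rintro rfl
    simp at h
  have hs := IsAlgClosed.splits p
  have h1 : p.eval z = p.leadingCoeff * (p.roots.map fun r => z - r).prod := by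
    conv_lhs => rw [hs.eq_prod_roots]
    rw [eval_mul, eval_C, eval_multiset_prod, Multiset.map_map]
    simp
  have h2 : ∀ s : Multiset ℂ, (∀ r ∈ s, ε ≤ ‖z - r‖) →
      ε ^ (Multiset.card s) ≤ ‖(s.map fun r => z - r).prod‖ := by
    intro s
    induction s using Multiset.induction_on with
    | empty => simp
    | cons a s ih =>
      intro hs
      rw [Multiset.map_cons, Multiset.prod_cons, Multiset.card_cons, pow_succ', norm_mul]
      exact mul_le_mul (hs a (Multiset.mem_cons_self a s))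
        (ih fun r hr => hs r (Multiset.mem_cons_of_mem hr)) (by positivity) (norm_nonneg _)
  have h3 : Multiset.card p.roots = p.natDegree := splits_iff_card_roots.1 hs
  have h4 := h2 p.roots fun r hr => hcon r ((mem_roots hp0).1 hr)
  rw [h3] at h4
  rw [h1, norm_mul] at h
  exact absurd h (not_lt.2 (mul_le_mul_of_nonneg_left h4 (norm_nonneg _)))

/-- upper half disc -/
def Dp : Set ℂ := {z | ‖z‖ < 1 ∧ 0 < z.im}

/-- closed upper half disc -/
def Kc : Set ℂ := {z | ‖z‖ ≤ 1 ∧ 0 ≤ z.im}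

/-- the point `e^{it}` -/
noncomputable def ee (t : ℝ) : ℂ := Complex.exp (t * Complex.I)

theorem ee_continuous : Continuous ee := by
  unfold ee
  fun_prop

theorem norm_ee (t : ℝ) : ‖ee t‖ = 1 := Complex.norm_exp_ofReal_mul_I t

theorem ee_zero : ee 0 = 1 := by simp [ee]

theorem ee_pi : ee Real.pi = -1 := Complex.exp_pi_mul_I

theorem Dp_open : IsOpen Dp :=
  (isOpen_lt continuous_norm continuous_const).inter
    (isOpen_lt continuous_const Complex.continuous_im)

theorem Kc_compact : IsCompact Kc := by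
  have : IsClosed Kc := (isClosed_le continuous_norm continuous_const).inter
    (isClosed_le continuous_const Complex.continuous_im)
  refine (isCompact_closedBall (0 : ℂ) 1).of_isClosed_subset this fun z hz => ?_
  rw [mem_closedBall_zero_iff]
  exact hz.1

theorem Dp_sub : Dp ⊆ Kc := fun _ hz => ⟨hz.1.le, hz.2.le⟩

theorem closure_Dp : closure Dp ⊆ Kc := closure_minimal Dp_sub Kc_compact.isClosed

theorem Dp_convex : Convex ℝ Dp := by
  have h0 : {z : ℂ | ‖z‖ < 1} = ball 0 1 := by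
    ext z
    simp
  have h1 : Convex ℝ {z : ℂ | ‖z‖ < 1} := by
    rw [h0]
    exact convex_ball (0 : ℂ) 1
  have h2 : Convex ℝ {z : ℂ | 0 < z.im} := convex_halfSpace_im_gt 0
  exact h1.inter h2

theorem ee_mem_Kc {t : ℝ} (ht : t ∈ Icc 0 Real.pi) : ee t ∈ Kc := by
  refine ⟨(norm_ee t).le, ?_⟩
  rw [ee, Complex.exp_ofReal_mul_I_im]
  exact Real.sin_nonneg_of_mem_Icc ht

theorem boundary_cases {z : ℂ} (hz : z ∈ Kc) :
    z ∈ Dp ∨ (∃ t ∈ Icc (0 : ℝ) Real.pi, z = ee t) ∨ ∃ x ∈ Ioo (-1 : ℝ) 1, z = (x : ℂ) := by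
  obtain ⟨h1, h2⟩ := hz
  rcases h1.lt_or_eq with h1 | h1
  · rcases h2.lt_or_eq with h2 | h2
    · exact Or.inl ⟨h1, h2⟩
    · right; right
      have hz : z = ((z.re : ℝ) : ℂ) := by
        apply Complex.ext <;> simp [← h2]
      refine ⟨z.re, ?_, hz⟩
      have := (Complex.abs_re_le_norm z).trans_lt h1
      exact abs_lt.1 this
  · right; left
    refine ⟨z.arg, ⟨Complex.arg_nonneg_iff.2 h2, Complex.arg_le_pi z⟩, ?_⟩
    have := Complex.norm_mul_exp_arg_mul_I z
    rw [h1, Complex.ofReal_one, one_mul] at this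
    exact this.symm

/-- boundary hypotheses for univalence -/
structure Bd (P : ℂ[X]) : Prop where
  deg : 1 ≤ P.natDegree
  conj : ∀ z, P.eval ((starRingEnd ℂ) z) = (starRingEnd ℂ) (P.eval z)
  h1 : ∀ t ∈ Icc (0 : ℝ) Real.pi, 0 ≤ (P.eval (ee t)).im
  h2 : ∀ t ∈ Ioo (0 : ℝ) Real.pi, ∀ t' ∈ Icc (0 : ℝ) Real.pi, P.eval (ee t') = P.eval (ee t) → t' = t
  h3 : ∀ t ∈ Ioo (0 : ℝ) Real.pi, P.derivative.eval (ee t) ≠ 0
  h4 : ∀ t ∈ Ioo (0 : ℝ) Real.pi, ∀ x ∈ Ioo (-1 : ℝ) 1, P.eval (x : ℂ) ≠ P.eval (ee t)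

namespace Bd

variable {P : ℂ[X]}

theorem im_real (h : Bd P) (x : ℝ) : (P.eval (x : ℂ)).im = 0 := by
  have := h.conj x
  rw [Complex.conj_ofReal] at this
  exact Complex.conj_eq_iff_im.1 this.symm

theorem im_nonneg (h : Bd P) {z : ℂ} (hz : z ∈ Kc) : 0 ≤ (P.eval z).im := by
  have hb : ∀ z ∈ Kc, z ∉ Dp → 0 ≤ (P.eval z).im := by
    intro z hz hz'
    rcases boundary_cases hz with h' | ⟨t, ht, rfl⟩ | ⟨x, _, rfl⟩
    · exact absurd h' hz'
    · exact h.h1 t ht
    · exact (h.im_real x).ge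
  by_cases hzD : z ∈ Dp
  swap
  · exact hb z hz hzD
  have hd : DiffContOnCl ℂ (fun z => Complex.exp (Complex.I * P.eval z)) Dp := by
    apply Differentiable.diffContOnCl
    exact Complex.differentiable_exp.comp ((differentiable_const _).mul P.differentiable)
  have hbd : Bornology.IsBounded Dp := Kc_compact.isBounded.subset Dp_sub
  have key := Complex.norm_le_of_forall_mem_frontier_norm_le (C := 1) hbd hd (by
    intro w hw
    have hw1 : w ∈ Kc := closure_Dp hw.1
    have hw2 : w ∉ Dp := by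
      have := hw.2
      rwa [Dp_open.interior_eq] at this
    have := hb w hw1 hw2
    rw [Complex.norm_exp]
    simp
    exact this) (subset_closure hzD)
  rw [Complex.norm_exp] at key
  simpa using key

theorem image_open (h : Bd P) {s : Set ℂ} (hs : IsOpen s) : IsOpen ((fun z => P.eval z) '' s) := by
  have ha : AnalyticOnNhd ℂ (fun z => P.eval z) univ := by
    have := P.differentiable (𝕜 := ℂ)
    exact (this.differentiableOn (s := univ)).analyticOnNhd isOpen_univ
  rcases ha.is_constant_or_isOpen isPreconnected_univ with ⟨w, hw⟩ | h'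
  · exfalso
    have : P = C w := Polynomial.funext fun z => by rw [hw z trivial, eval_C]
    have hd := h.deg
    rw [this, natDegree_C] at hd
    omega
  · exact h' s (subset_univ s) hs

theorem im_pos (h : Bd P) {z : ℂ} (hz : z ∈ Dp) : 0 < (P.eval z).im := by
  have h1 : (fun z => P.eval z) '' Dp ⊆ {w : ℂ | 0 ≤ w.im} := by
    rintro _ ⟨w, hw, rfl⟩
    exact h.im_nonneg (Dp_sub hw)
  have h2 := interior_maximal h1 (h.image_open Dp_open)
  rw [Complex.interior_setOfPred_le_im] at h2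
  exact h2 ⟨z, hz, rfl⟩

attribute [local irreducible] dq

/-- limits of pairs with vanishing difference quotient -/
theorem limit_pair (z w : ℕ → ℂ) (hz : ∀ k, z k ∈ Dp) (w0 : ℂ) (hw : Tendsto w atTop (𝓝 w0))
    (hq : ∀ k, dq P (z k) (w k) = 0) : ∃ z0 ∈ Kc, dq P z0 w0 = 0 := by
  obtain ⟨z0, hz0, φ, hφ, hlim⟩ := Kc_compact.tendsto_subseq fun k => Dp_sub (hz k)
  refine ⟨z0, hz0, ?_⟩
  have h3 : Tendsto (fun k => (z (φ k), w (φ k))) atTop (𝓝 (z0, w0)) :=
    Tendsto.prodMk_nhds hlim (hw.comp hφ.tendsto_atTop)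
  have h1 : Tendsto (fun k => dq P (z (φ k)) (w (φ k))) atTop (𝓝 (dq P z0 w0)) :=
    Tendsto.comp (g := fun x : ℂ × ℂ => dq P x.1 x.2) ((dq_continuous P).tendsto (z0, w0)) h3
  have h2 : Tendsto (fun k => dq P (z (φ k)) (w (φ k))) atTop (𝓝 0) := by
    simp_rw [hq]
    exact tendsto_const_nhds
  exact tendsto_nhds_unique h1 h2

theorem ne_ee {z : ℂ} (hz : z ∈ Dp) (t : ℝ) : z ≠ ee t := by
  rintro rfl
  have := hz.1
  rw [norm_ee] at this
  exact lt_irrefl _ this

/-- a boundary point `e^{it}` can only be paired with interior points -/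
theorem bd_pair (h : Bd P) {t : ℝ} (ht : t ∈ Ioo 0 Real.pi) {z0 : ℂ} (hz : z0 ∈ Kc)
    (hq : dq P z0 (ee t) = 0) : z0 ∈ Dp := by
  have he := eq_of_dq P hq
  rcases boundary_cases hz with h' | ⟨t', ht', rfl⟩ | ⟨x, hx, rfl⟩
  · exact h'
  · exfalso
    have := h.h2 t ht t' ht' he
    subst this
    rw [dq_diag] at hq
    exact h.h3 t' ht hq
  · exact absurd he (h.h4 t ht x hx)

theorem claimA (h : Bd P) {t : ℝ} (ht : t ∈ Ioo 0 Real.pi) :
    P.eval (ee t) ∉ (fun z => P.eval z) '' Dp := by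
  intro hmem
  set u : Set ℝ := Ioo 0 Real.pi ∩ (fun t => P.eval (ee t)) ⁻¹' ((fun z => P.eval z) '' Dp) with hu
  have huo : IsOpen u := isOpen_Ioo.inter
    ((h.image_open Dp_open).preimage (P.continuous.comp ee_continuous))
  have hall : Ioo 0 Real.pi ⊆ u := by
    refine isPreconnected_Ioo.subset_of_closure_inter_subset huo ⟨t, ht, ht, hmem⟩ ?_
    rintro s ⟨hs, hs'⟩
    obtain ⟨sk, hsk, hlim⟩ := mem_closure_iff_seq_limit.1 hs
    choose z hz hz' using fun k => (hsk k).2
    obtain ⟨z0, hz0, hq⟩ := limit_pair (P := P) z (fun k => ee (sk k)) hz (ee s)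
      ((ee_continuous.tendsto s).comp hlim)
      (fun k => dq_of_ne P (hz' k) (ne_ee (hz k) _))
    exact ⟨hs', z0, h.bd_pair hs' hz0 hq, eq_of_dq P hq⟩
  -- the maximum of the imaginary part
  obtain ⟨m, hm, hmax⟩ := Kc_compact.exists_isMaxOn
    ⟨ee 0, ee_mem_Kc ⟨le_rfl, Real.pi_pos.le⟩⟩
    (Complex.continuous_im.comp P.continuous).continuousOn
  have hno : ∀ z ∈ Dp, (P.eval z).im < (P.eval m).im := by
    intro z hz
    have h1 : (fun z => P.eval z) '' Dp ⊆ {w : ℂ | w.im ≤ (P.eval m).im} := by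
      rintro _ ⟨w, hw, rfl⟩
      exact hmax (Dp_sub hw)
    have h2 := interior_maximal h1 (h.image_open Dp_open)
    rw [Complex.interior_setOfPred_im_le] at h2
    exact h2 ⟨z, hz, rfl⟩
  have hpos : 0 < (P.eval m).im := by
    have hI : (Complex.I / 2) ∈ Dp := by
      refine ⟨?_, ?_⟩
      · rw [norm_div, Complex.norm_I]
        norm_num
      · simp
    exact (h.im_pos hI).trans (hno _ hI)
  rcases boundary_cases hm with h' | ⟨t', ht', rfl⟩ | ⟨x, _, rfl⟩
  · exact lt_irrefl _ (hno m h')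
  · have ht'' : t' ∈ Ioo 0 Real.pi := by
      refine ⟨lt_of_le_of_ne ht'.1 ?_, lt_of_le_of_ne ht'.2 ?_⟩
      · rintro rfl
        rw [ee_zero] at hpos
        have := h.im_real 1
        rw [Complex.ofReal_one] at this
        linarith
      · rintro rfl
        rw [ee_pi] at hpos
        have := h.im_real (-1)
        rw [Complex.ofReal_neg, Complex.ofReal_one] at this
        linarith
    obtain ⟨z, hz, hz'⟩ := (hall ht'').2
    have := hno z hz
    simp only at hz'
    rw [hz'] at this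
    exact lt_irrefl _ this
  · have := h.im_real x
    linarith

/-- openness in the parameter -/
theorem open_param (h : Bd P) {z0 w0 : ℂ} (hq : dq P z0 w0 = 0) {s : Set ℂ} (hs : s ∈ 𝓝 z0) :
    ∀ᶠ w in 𝓝 w0, ∃ z ∈ s, dq P z w = 0 := by
  obtain ⟨ε, hε, hεs⟩ := Metric.mem_nhds_iff.1 hs
  have hP0 : P ≠ 0 := by
    rintro rfl
    have := h.deg
    simp at this
  have hc : 0 < ‖P.leadingCoeff‖ * ε ^ (P.natDegree - 1) :=
    mul_pos (norm_pos_iff.2 (leadingCoeff_ne_zero.2 hP0)) (pow_pos hε _)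
  have hcont : Continuous fun w => ‖dq P z0 w‖ :=
    ((dq_continuous P).comp (continuous_const.prodMk continuous_id)).norm
  have h1 : ∀ᶠ w in 𝓝 w0, ‖dq P z0 w‖ < ‖P.leadingCoeff‖ * ε ^ (P.natDegree - 1) := by
    apply hcont.continuousAt.eventually_lt continuousAt_const
    rw [hq, norm_zero]
    exact hc
  filter_upwards [h1] with w hw
  obtain ⟨hd, hl⟩ := dqP_natDegree P h.deg w
  have hd' : (dqP P w).natDegree = P.natDegree - 1 := by omega
  obtain ⟨r, hr, hr'⟩ := root_near (dqP P w) z0 ε hε (by rw [dqP_eval, hd', hl]; exact hw)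
  refine ⟨r, hεs ?_, by rw [← dqP_eval]; exact hr⟩
  rw [mem_ball, dist_comm, dist_eq_norm]
  exact hr'

theorem dq_ne (h : Bd P) {z w : ℂ} (hz : z ∈ Dp) (hw : w ∈ Dp) : dq P z w ≠ 0 := by
  intro hq
  set u : Set ℂ := {w | w ∈ Dp ∧ ∃ z ∈ Dp, dq P z w = 0} with hu
  have huo : IsOpen u := by
    rw [isOpen_iff_mem_nhds]
    rintro w1 ⟨hw1, z1, hz1, hq1⟩
    filter_upwards [Dp_open.mem_nhds hw1, h.open_param hq1 (Dp_open.mem_nhds hz1)] with w' h1 h2
    exact ⟨h1, h2⟩
  have hall : Dp ⊆ u := by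
    refine Dp_convex.isPreconnected.subset_of_closure_inter_subset huo ⟨w, hw, hw, z, hz, hq⟩ ?_
    rintro s ⟨hs, hs'⟩
    obtain ⟨sk, hsk, hlim⟩ := mem_closure_iff_seq_limit.1 hs
    choose z hz hz' using fun k => (hsk k).2
    obtain ⟨z0, hz0, hq⟩ := limit_pair (P := P) z sk hz s hlim hz'
    refine ⟨hs', z0, ?_, hq⟩
    have he := eq_of_dq P hq
    rcases boundary_cases hz0 with h' | ⟨t', ht', rfl⟩ | ⟨x, hx, rfl⟩
    · exact h'
    · exfalso
      have hpos := h.im_pos hs'
      rw [← he] at hpos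
      have ht'' : t' ∈ Ioo 0 Real.pi := by
        refine ⟨lt_of_le_of_ne ht'.1 ?_, lt_of_le_of_ne ht'.2 ?_⟩
        · rintro rfl
          rw [ee_zero] at hpos
          have := h.im_real 1
          rw [Complex.ofReal_one] at this
          linarith
        · rintro rfl
          rw [ee_pi] at hpos
          have := h.im_real (-1)
          rw [Complex.ofReal_neg, Complex.ofReal_one] at this
          linarith
      exact h.claimA ht'' ⟨s, hs', he.symm⟩
    · exfalso
      have hpos := h.im_pos hs'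
      rw [← he, h.im_real] at hpos
      exact lt_irrefl _ hpos
  -- a sequence tending to `i`
  have hlim : Tendsto (fun k : ℕ => ((1 - 1 / ((k : ℝ) + 2) : ℝ) : ℂ) * Complex.I) atTop
      (𝓝 (ee (Real.pi / 2))) := by
    have h1 : ee (Real.pi / 2) = ((1 - 0 : ℝ) : ℂ) * Complex.I := by
      rw [ee]
      push_cast
      rw [Complex.exp_pi_div_two_mul_I]
      simp
    rw [h1]
    apply Tendsto.mul_const
    apply (Complex.continuous_ofReal.tendsto _).comp
    apply Tendsto.sub tendsto_const_nhds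
    have := tendsto_const_div_atTop_nhds_zero_nat (1 : ℝ)
    have h2 := (tendsto_add_atTop_iff_nat 2).2 this
    simpa using h2
  have hmem : ∀ k : ℕ, ((1 - 1 / ((k : ℝ) + 2) : ℝ) : ℂ) * Complex.I ∈ Dp := by
    intro k
    have hk : (0 : ℝ) < (k : ℝ) + 2 := by positivity
    have h1 : 1 / ((k : ℝ) + 2) ≤ 1 / 2 := by
      apply one_div_le_one_div_of_le <;> linarith [Nat.cast_nonneg (α := ℝ) k]
    have h2 : 0 < 1 / ((k : ℝ) + 2) := by positivity
    refine ⟨?_, ?_⟩
    · rw [norm_mul, Complex.norm_I, mul_one, Complex.norm_real, Real.norm_eq_abs, abs_of_pos] <;>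
        linarith
    · simp only [Complex.mul_im, Complex.ofReal_re, Complex.I_im, mul_one, Complex.ofReal_im,
        Complex.I_re, mul_zero, add_zero]
      linarith
  choose z hz hz' using fun k => (hall (hmem k)).2
  obtain ⟨z0, hz0, hq⟩ := limit_pair (P := P) z _ hz _ hlim hz'
  have hI : Real.pi / 2 ∈ Ioo 0 Real.pi := ⟨by positivity, by linarith [Real.pi_pos]⟩
  have hz0' := h.bd_pair hI hz0 hq
  exact h.claimA hI ⟨z0, hz0', eq_of_dq P hq⟩

theorem conj_mem {z : ℂ} (hz : ‖z‖ < 1) (hi : z.im < 0) : (starRingEnd ℂ) z ∈ Dp := by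
  refine ⟨?_, ?_⟩
  · rwa [Complex.norm_conj]
  · rw [Complex.conj_im]
    linarith

theorem im_neg (h : Bd P) {z : ℂ} (hz : ‖z‖ < 1) (hi : z.im < 0) : (P.eval z).im < 0 := by
  have := h.im_pos (conj_mem hz hi)
  rw [h.conj, Complex.conj_im] at this
  linarith

theorem mem_Dp_of_im (h : Bd P) {z : ℂ} (hz : ‖z‖ < 1) (hi : 0 < (P.eval z).im) : z ∈ Dp := by
  refine ⟨hz, ?_⟩
  by_contra hcon
  rcases (not_lt.1 hcon).lt_or_eq with h1 | h1
  · linarith [h.im_neg hz h1]
  · have hz' : z = ((z.re : ℝ) : ℂ) := by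
      apply Complex.ext <;> simp [h1]
    rw [hz', h.im_real] at hi
    exact lt_irrefl _ hi

/-- the boundary hypotheses imply injectivity on the open unit disc -/
theorem injOn (h : Bd P) : InjOn (fun z => P.eval z) (ball 0 1) := by
  have key : ∀ z ∈ Dp, ∀ w : ℂ, ‖w‖ < 1 → P.eval z = P.eval w → z = w := by
    intro z hz w hw he
    by_contra hne
    have hw' : w ∈ Dp := h.mem_Dp_of_im hw (by rw [← he]; exact h.im_pos hz)
    exact h.dq_ne hz hw' (dq_of_ne P he hne)
  intro z hz w hw he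
  simp only at he
  rw [mem_ball_zero_iff] at hz hw
  rcases lt_trichotomy z.im 0 with h1 | h1 | h1
  · have := key _ (conj_mem hz h1) ((starRingEnd ℂ) w) (by rwa [Complex.norm_conj])
      (by rw [h.conj, h.conj, he])
    exact (starRingEnd ℂ).injective this
  · rcases lt_trichotomy w.im 0 with h2 | h2 | h2
    · have := key _ (conj_mem hw h2) ((starRingEnd ℂ) z) (by rwa [Complex.norm_conj])
        (by rw [h.conj, h.conj, he])
      exact ((starRingEnd ℂ).injective this).symm
    · -- both real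
      by_contra hne
      have hq : dq P z w = 0 := dq_of_ne P he hne
      have hball : {x : ℂ | ‖x‖ < 1} ∈ 𝓝 z := (isOpen_lt continuous_norm continuous_const).mem_nhds hz
      have h3 := h.open_param hq hball
      have h4 : ∀ᶠ x in 𝓝 w, ‖x‖ < 1 :=
        (isOpen_lt continuous_norm continuous_const).mem_nhds hw
      have h5 : Tendsto (fun r : ℝ => w + (r : ℂ) * Complex.I) (𝓝[>] 0) (𝓝 w) := by
        have hc : Continuous fun r : ℝ => w + (r : ℂ) * Complex.I := by fun_prop
        have := (hc.tendsto 0).mono_left (nhdsWithin_le_nhds (s := Ioi 0))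
        simpa using this
      obtain ⟨r, ⟨⟨x, hx, hx'⟩, hr⟩, hr0⟩ :=
        ((h5.eventually (h3.and h4)).and self_mem_nhdsWithin).exists
      have hrD : w + (r : ℂ) * Complex.I ∈ Dp := by
        refine ⟨hr, ?_⟩
        have : (0 : ℝ) < r := hr0
        simpa [h2] using this
      have hxD : x ∈ Dp := h.mem_Dp_of_im hx (by rw [eq_of_dq P hx']; exact h.im_pos hrD)
      exact h.dq_ne hxD hrD hx'
    · exact (key w ⟨hw, h2⟩ z hz he.symm).symm
  · exact key z ⟨hz, h1⟩ w hw he

end Bd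

end Pool.Agent.Zk56.UV
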