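import Mathlib

set_option autoImplicit false

open Real Finset

namespace Pool.Agent.Zk56.UV

/-- the basic angle -/
noncomputable def ph (n : ℕ) : ℝ := π / n

/-- the weights -/
noncomputable def wt (n j : ℕ) : ℝ :=
  ((n : ℝ) - j) * sin (ph n) * cos (j * ph n) + cos (ph n) * sin (j * ph n)

theorem cos_rec (x : ℝ) (j : ℕ) :
    cos ((j + 2 : ℕ) * x) = 2 * cos x * cos ((j + 1 : ℕ) * x) - cos (j * x) := by
  have h1 : ((j + 2 : ℕ) : ℝ) * x = ((j + 1 : ℕ) : ℝ) * x + x := by push_cast; ring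
  have h2 : (j : ℝ) * x = ((j + 1 : ℕ) : ℝ) * x - x := by push_cast; ring
  rw [h1, h2, cos_add, cos_sub]
  ring

theorem sin_rec (x : ℝ) (j : ℕ) :
    sin ((j + 2 : ℕ) * x) = 2 * cos x * sin ((j + 1 : ℕ) * x) - sin (j * x) := by
  have h1 : ((j + 2 : ℕ) : ℝ) * x = ((j + 1 : ℕ) : ℝ) * x + x := by push_cast; ring
  have h2 : (j : ℝ) * x = ((j + 1 : ℕ) : ℝ) * x - x := by push_cast; ring
  rw [h1, h2, sin_add, sin_sub]
  ring

theorem wt_rec2 (n j : ℕ) :
    wt n (j + 2) = 2 * cos (ph n) * wt n (j + 1) - wt n j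
      + 2 * sin (ph n) ^ 2 * sin ((j + 1 : ℕ) * ph n) := by
  have h1 : ((j + 2 : ℕ) : ℝ) * ph n = ((j + 1 : ℕ) : ℝ) * ph n + ph n := by push_cast; ring
  have h2 : (j : ℝ) * ph n = ((j + 1 : ℕ) : ℝ) * ph n - ph n := by push_cast; ring
  have h3 := sin_sq_add_cos_sq (ph n)
  unfold wt
  rw [h1, h2, cos_add, cos_sub, sin_add, sin_sub]
  push_cast
  linear_combination 0 * h3

theorem wt_rec4 (n j : ℕ) :
    wt n (j + 4) = 4 * cos (ph n) * wt n (j + 3) - (4 * cos (ph n) ^ 2 + 2) * wt n (j + 2)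
      + 4 * cos (ph n) * wt n (j + 1) - wt n j := by
  have a := wt_rec2 n j
  have b := wt_rec2 n (j + 1)
  have c := wt_rec2 n (j + 2)
  have d := sin_rec (ph n) (j + 1)
  rw [c, b]
  rw [b] at *
  rw [a]
  rw [show j + 1 + 2 = j + 2 + 1 from rfl, show j + 1 + 1 = j + 2 from rfl] at d ⊢
  rw [d]
  ring

theorem ph_mul (n : ℕ) (hn : 0 < n) : (n : ℝ) * ph n = π := by
  unfold ph
  field_simp

theorem wt_zero (n : ℕ) : wt n 0 = n * sin (ph n) := by
  simp [wt]

theorem wt_one (n : ℕ) : wt n 1 = n * sin (ph n) * cos (ph n) := by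
  simp [wt]
  ring

theorem wt_n (n : ℕ) (hn : 0 < n) : wt n n = 0 := by
  simp [wt, ph_mul n hn]

theorem wt_n1 (n : ℕ) (hn : 0 < n) : wt n (n + 1) = 0 := by
  have h : ((n + 1 : ℕ) : ℝ) * ph n = ph n + π := by
    rw [← ph_mul n hn]
    push_cast
    ring
  rw [wt, h, cos_add_pi, sin_add_pi]
  push_cast
  ring

theorem wt_n2 (n : ℕ) (hn : 0 < n) : wt n (n + 2) = - (2 * sin (ph n) ^ 3) := by
  have h : ((n + 1 : ℕ) : ℝ) * ph n = ph n + π := by
    rw [← ph_mul n hn]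
    push_cast
    ring
  rw [wt_rec2, wt_n1 n hn, wt_n n hn, h, sin_add_pi]
  ring

theorem wt_n3 (n : ℕ) (hn : 0 < n) : wt n (n + 3) = - (8 * cos (ph n) * sin (ph n) ^ 3) := by
  have h : ((n + 1 + 1 : ℕ) : ℝ) * ph n = 2 * ph n + π := by
    rw [← ph_mul n hn]
    push_cast
    ring
  have := wt_rec2 n (n + 1)
  rw [show n + 3 = n + 1 + 2 from rfl, this, show n + 1 + 1 = n + 2 from rfl, wt_n2 n hn,
    wt_n1 n hn, show n + 2 = n + 1 + 1 from rfl, h, sin_add_pi, sin_two_mul]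
  ring

/-- boundary polynomial -/
noncomputable def bp (n : ℕ) (z : ℂ) (m : ℕ) : ℂ :=
  (wt n m : ℂ) + ((wt n (m + 1) : ℂ) - 4 * (cos (ph n) : ℂ) * wt n m) * z
    + ((wt n (m + 2) : ℂ) - 4 * (cos (ph n) : ℂ) * wt n (m + 1)
      + (4 * (cos (ph n) : ℂ) ^ 2 + 2) * wt n m) * z ^ 2
    + ((wt n (m + 3) : ℂ) - 4 * (cos (ph n) : ℂ) * wt n (m + 2)
      + (4 * (cos (ph n) : ℂ) ^ 2 + 2) * wt n (m + 1) - 4 * (cos (ph n) : ℂ) * wt n m) * z ^ 3

theorem geom_id (n : ℕ) (z : ℂ) (m : ℕ) :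
    (z ^ 2 - 2 * (cos (ph n) : ℂ) * z + 1) ^ 2 * ∑ j ∈ range m, (wt n j : ℂ) * z ^ j
      = bp n z 0 - z ^ m * bp n z m := by
  induction m with
  | zero => simp
  | succ m ih =>
    rw [sum_range_succ, mul_add, ih]
    have h := wt_rec4 n m
    have h' : (wt n (m + 4) : ℂ) = 4 * (cos (ph n) : ℂ) * wt n (m + 3)
      - (4 * (cos (ph n) : ℂ) ^ 2 + 2) * wt n (m + 2)
      + 4 * (cos (ph n) : ℂ) * wt n (m + 1) - wt n m := by exact_mod_cast h
    have hb : bp n z (m + 1) = (wt n (m + 1) : ℂ)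
      + ((wt n (m + 2) : ℂ) - 4 * (cos (ph n) : ℂ) * wt n (m + 1)) * z
      + ((wt n (m + 3) : ℂ) - 4 * (cos (ph n) : ℂ) * wt n (m + 2)
        + (4 * (cos (ph n) : ℂ) ^ 2 + 2) * wt n (m + 1)) * z ^ 2
      + ((wt n (m + 4) : ℂ) - 4 * (cos (ph n) : ℂ) * wt n (m + 3)
        + (4 * (cos (ph n) : ℂ) ^ 2 + 2) * wt n (m + 2) - 4 * (cos (ph n) : ℂ) * wt n (m + 1))
          * z ^ 3 := rfl
    rw [hb, h']
    unfold bp
    ring

theorem geom_closed (n : ℕ) (hn : 0 < n) (z : ℂ) :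
    (z ^ 2 - 2 * (cos (ph n) : ℂ) * z + 1) ^ 2 * ∑ j ∈ range n, (wt n j : ℂ) * z ^ j
      = 2 * (sin (ph n) : ℂ) ^ 3 * z ^ 2 * (1 + z ^ n)
        + n * (sin (ph n) : ℂ) * (z ^ 2 - 2 * (cos (ph n) : ℂ) * z + 1)
          * (1 - (cos (ph n) : ℂ) * z) := by
  rw [geom_id]
  have h0 := wt_zero n
  have h1 := wt_one n
  have h2 := wt_rec2 n 0
  have h3 := wt_rec2 n 1
  have e1 : ((0 + 1 : ℕ) : ℝ) * ph n = ph n := by push_cast; ring
  have e2 : ((1 + 1 : ℕ) : ℝ) * ph n = 2 * ph n := by push_cast; ring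
  rw [e1] at h2
  rw [e2, sin_two_mul] at h3
  simp only [zero_add] at h2
  rw [h0, h1] at h2
  rw [show 1 + 1 = 2 from rfl, h1, h2] at h3
  have hc : (sin (ph n) : ℂ) ^ 2 + (cos (ph n) : ℂ) ^ 2 = 1 := by
    exact_mod_cast sin_sq_add_cos_sq (ph n)
  have k0 := wt_n n hn
  have k1 := wt_n1 n hn
  have k2 := wt_n2 n hn
  have k3 := wt_n3 n hn
  unfold bp
  simp only [zero_add]
  rw [h0, h1, h2, h3, k0, k1, k2, k3]
  push_cast
  ring

/-- even kernel -/
noncomputable def Ks (n : ℕ) (s : ℝ) : ℝ :=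
  ∑ j ∈ range n, wt n j * cos (j * s) - n * sin (ph n) / 2

/-- conjugate kernel -/
noncomputable def Kt (n : ℕ) (s : ℝ) : ℝ := ∑ j ∈ range n, wt n j * sin (j * s)

/-- derivative of the conjugate kernel -/
noncomputable def Ls (n : ℕ) (s : ℝ) : ℝ := ∑ j ∈ range n, j * wt n j * cos (j * s)

/-- minus the derivative of the even kernel -/
noncomputable def Ms (n : ℕ) (s : ℝ) : ℝ := ∑ j ∈ range n, j * wt n j * sin (j * s)

/-- the denominator -/
noncomputable def Dd (n : ℕ) (s : ℝ) : ℝ := cos s - cos (ph n)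

/-- a point on the circle -/
noncomputable def zz (s : ℝ) : ℂ := (cos s : ℂ) + (sin s : ℂ) * Complex.I

theorem zz_pow (s : ℝ) (j : ℕ) : zz s ^ j = (cos (j * s) : ℂ) + (sin (j * s) : ℂ) * Complex.I := by
  rw [zz, Complex.ofReal_cos, Complex.ofReal_sin, Complex.cos_add_sin_mul_I_pow]
  push_cast
  rfl

theorem complex_closed (n : ℕ) (hn : 0 < n) (s : ℝ) :
    2 * (Dd n s : ℂ) ^ 2 * ∑ j ∈ range n, (wt n j : ℂ) * zz s ^ j
      = (sin (ph n) : ℂ) ^ 3 * (1 + zz s ^ n)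
        + n * (sin (ph n) : ℂ) * (Dd n s : ℂ) * ((Dd n s : ℂ) - (sin s : ℂ) * Complex.I) := by
  have h := geom_closed n hn (zz s)
  have hI := Complex.I_sq
  have hs : (sin s : ℂ) ^ 2 + (cos s : ℂ) ^ 2 = 1 := by exact_mod_cast sin_sq_add_cos_sq s
  set zi : ℂ := (cos s : ℂ) - (sin s : ℂ) * Complex.I with hzi
  have hz : zz s * zi = 1 := by
    rw [zz, hzi]
    linear_combination hs - (sin s : ℂ) ^ 2 * hI
  have hD : (Dd n s : ℂ) = (cos s : ℂ) - (cos (ph n) : ℂ) := by rw [Dd]; push_cast; rfl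
  have h2 : zz s ^ 2 - 2 * (cos (ph n) : ℂ) * zz s + 1 = 2 * zz s * (Dd n s : ℂ) := by
    rw [hD]
    have : zz s + zi = 2 * (cos s : ℂ) := by rw [zz, hzi]; ring
    linear_combination zz s * this - hz
  rw [h2] at h
  have hz2 : zz s ≠ 0 := fun h0 => by rw [h0, zero_mul] at hz; exact zero_ne_one hz
  have h3 : (1 - (cos (ph n) : ℂ) * zz s) = zz s * ((Dd n s : ℂ) - (sin s : ℂ) * Complex.I) := by
    have : (Dd n s : ℂ) - (sin s : ℂ) * Complex.I = zi - (cos (ph n) : ℂ) := by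
      rw [hD, hzi]; ring
    rw [this]
    linear_combination - hz
  rw [h3] at h
  have h4 : 2 * zz s ^ 2 ≠ 0 := mul_ne_zero two_ne_zero (pow_ne_zero 2 hz2)
  apply mul_left_cancel₀ h4
  linear_combination h

theorem sum_parts (n : ℕ) (s : ℝ) :
    ∑ j ∈ range n, (wt n j : ℂ) * zz s ^ j
      = ((∑ j ∈ range n, wt n j * cos (j * s) : ℝ) : ℂ)
        + ((∑ j ∈ range n, wt n j * sin (j * s) : ℝ) : ℂ) * Complex.I := by
  push_cast
  rw [sum_mul, ← sum_add_distrib]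
  refine sum_congr rfl fun j _ => ?_
  rw [zz_pow]
  push_cast
  ring

theorem closed_both (n : ℕ) (hn : 0 < n) (s : ℝ) :
    2 * Dd n s ^ 2 * Ks n s = sin (ph n) ^ 3 * (1 + cos (n * s)) ∧
    2 * Dd n s ^ 2 * Kt n s = sin (ph n) ^ 3 * sin (n * s) - n * sin (ph n) * Dd n s * sin s := by
  have h := complex_closed n hn s
  rw [sum_parts, zz_pow] at h
  have h' : (((2 * Dd n s ^ 2 * ∑ j ∈ range n, wt n j * cos (j * s) : ℝ) : ℂ)
      + ((2 * Dd n s ^ 2 * ∑ j ∈ range n, wt n j * sin (j * s) : ℝ) : ℂ) * Complex.I)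
      = ((sin (ph n) ^ 3 * (1 + cos (n * s)) + n * sin (ph n) * Dd n s * Dd n s : ℝ) : ℂ)
        + ((sin (ph n) ^ 3 * sin (n * s) - n * sin (ph n) * Dd n s * sin s : ℝ) : ℂ)
          * Complex.I := by
    push_cast
    push_cast at h
    linear_combination h
  have hre := congrArg Complex.re h'
  have him := congrArg Complex.im h'
  simp only [Complex.add_re, Complex.add_im, Complex.ofReal_re, Complex.ofReal_im,
    Complex.mul_re, Complex.mul_im, Complex.I_re, Complex.I_im, mul_zero, mul_one, sub_self,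
    add_zero, zero_add] at hre him
  constructor
  · rw [Ks]
    linear_combination hre
  · rw [Kt]
    linear_combination him

theorem closedK (n : ℕ) (hn : 0 < n) (s : ℝ) :
    2 * Dd n s ^ 2 * Ks n s = sin (ph n) ^ 3 * (1 + cos (n * s)) := (closed_both n hn s).1

theorem closedKt (n : ℕ) (hn : 0 < n) (s : ℝ) :
    2 * Dd n s ^ 2 * Kt n s = sin (ph n) ^ 3 * sin (n * s) - n * sin (ph n) * Dd n s * sin s :=
  (closed_both n hn s).2

theorem hasDerivAt_Kt (n : ℕ) (s : ℝ) : HasDerivAt (Kt n) (Ls n s) s := by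
  unfold Kt Ls
  apply HasDerivAt.fun_sum
  intro j _
  have h1 : HasDerivAt (fun s : ℝ => (j : ℝ) * s) j s := by
    simpa using (hasDerivAt_id s).const_mul (j : ℝ)
  have h2 := (h1.sin).const_mul (wt n j)
  have e : wt n j * (cos (j * s) * j) = j * wt n j * cos (j * s) := by ring
  rw [← e]
  exact h2

theorem hasDerivAt_Ks (n : ℕ) (s : ℝ) : HasDerivAt (Ks n) (-Ms n s) s := by
  unfold Ks Ms
  rw [← sum_neg_distrib]
  apply HasDerivAt.sub_const
  apply HasDerivAt.fun_sum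
  intro j _
  have h1 : HasDerivAt (fun s : ℝ => (j : ℝ) * s) j s := by
    simpa using (hasDerivAt_id s).const_mul (j : ℝ)
  have h2 := (h1.cos).const_mul (wt n j)
  have e : wt n j * (-sin (j * s) * j) = -(j * wt n j * sin (j * s)) := by ring
  rw [← e]
  exact h2

theorem hasDerivAt_Dd (n : ℕ) (s : ℝ) : HasDerivAt (Dd n) (-sin s) s := by
  unfold Dd
  exact (hasDerivAt_cos s).sub_const _

theorem hasDerivAt_nmul (n : ℕ) (s : ℝ) : HasDerivAt (fun s : ℝ => (n : ℝ) * s) n s := by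
  simpa using (hasDerivAt_id s).const_mul (n : ℝ)

theorem closedL (n : ℕ) (hn : 0 < n) (s : ℝ) :
    -(4 * Dd n s * sin s * Kt n s) + 2 * Dd n s ^ 2 * Ls n s
      = n * sin (ph n) ^ 3 * cos (n * s) - n * sin (ph n) * (Dd n s * cos s - sin s ^ 2) := by
  have h1 : HasDerivAt (fun s => 2 * Dd n s ^ 2 * Kt n s)
      (2 * (2 * Dd n s ^ 1 * (-sin s)) * Kt n s + 2 * Dd n s ^ 2 * Ls n s) s :=
    (((hasDerivAt_Dd n s).pow 2).const_mul 2).mul (hasDerivAt_Kt n s)
  have h2 : HasDerivAt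
      (fun s => sin (ph n) ^ 3 * sin (n * s) - n * sin (ph n) * Dd n s * sin s)
      (sin (ph n) ^ 3 * (cos (n * s) * n)
        - ((n * sin (ph n) * (-sin s)) * sin s + n * sin (ph n) * Dd n s * cos s)) s :=
    (((hasDerivAt_nmul n s).sin).const_mul _).sub
      (((hasDerivAt_Dd n s).const_mul _).mul (hasDerivAt_sin s))
  have h3 : (fun s => 2 * Dd n s ^ 2 * Kt n s)
      = fun s => sin (ph n) ^ 3 * sin (n * s) - n * sin (ph n) * Dd n s * sin s :=
    funext fun s => closedKt n hn s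
  rw [h3] at h1
  have := h1.unique h2
  linear_combination this

theorem closedM (n : ℕ) (hn : 0 < n) (s : ℝ) :
    4 * Dd n s * sin s * Ks n s + 2 * Dd n s ^ 2 * Ms n s
      = n * sin (ph n) ^ 3 * sin (n * s) := by
  have h1 : HasDerivAt (fun s => 2 * Dd n s ^ 2 * Ks n s)
      (2 * (2 * Dd n s ^ 1 * (-sin s)) * Ks n s + 2 * Dd n s ^ 2 * (-Ms n s)) s :=
    (((hasDerivAt_Dd n s).pow 2).const_mul 2).mul (hasDerivAt_Ks n s)
  have h2 : HasDerivAt (fun s => sin (ph n) ^ 3 * (1 + cos (n * s)))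
      (sin (ph n) ^ 3 * (-sin (n * s) * n)) s :=
    (((hasDerivAt_nmul n s).cos).const_add 1).const_mul _
  have h3 : (fun s => 2 * Dd n s ^ 2 * Ks n s)
      = fun s => sin (ph n) ^ 3 * (1 + cos (n * s)) :=
    funext fun s => closedK n hn s
  rw [h3] at h1
  have := h1.unique h2
  linear_combination -this

theorem sin_ph_pos (n : ℕ) (hn : 2 ≤ n) : 0 < sin (ph n) := by
  apply sin_pos_of_pos_of_lt_pi
  · unfold ph
    have : (0 : ℝ) < n := by positivity
    positivity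
  · unfold ph
    rw [div_lt_iff₀ (by positivity)]
    have : (2 : ℝ) ≤ n := by exact_mod_cast hn
    nlinarith [pi_pos]

theorem Ks_ph (n : ℕ) (hn : 2 ≤ n) : Ks n (ph n) = n ^ 2 * sin (ph n) / 4 := by
  have hn0 : 0 < n := by omega
  have hs := sin_ph_pos n hn
  have hD0 : Dd n (ph n) = 0 := by simp [Dd]
  have hM : Differentiable ℝ (Ms n) := by
    unfold Ms
    fun_prop
  have h1 : HasDerivAt (fun s => Dd n s * (4 * sin s * Ks n s + 2 * Dd n s * Ms n s))
      ((-sin (ph n)) * (4 * sin (ph n) * Ks n (ph n) + 2 * Dd n (ph n) * Ms n (ph n))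
        + Dd n (ph n) * ((4 * cos (ph n)) * Ks n (ph n) + 4 * sin (ph n) * (-Ms n (ph n))
          + ((2 * (-sin (ph n))) * Ms n (ph n)
            + 2 * Dd n (ph n) * deriv (Ms n) (ph n)))) (ph n) := by
    apply (hasDerivAt_Dd n (ph n)).mul
    apply HasDerivAt.add
    · exact ((hasDerivAt_sin (ph n)).const_mul 4).mul (hasDerivAt_Ks n (ph n))
    · exact ((hasDerivAt_Dd n (ph n)).const_mul 2).mul (hM (ph n)).hasDerivAt
  have h2 : HasDerivAt (fun s => n * sin (ph n) ^ 3 * sin (n * s))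
      (n * sin (ph n) ^ 3 * (cos (n * ph n) * n)) (ph n) :=
    ((hasDerivAt_nmul n (ph n)).sin).const_mul _
  have h3 : (fun s => Dd n s * (4 * sin s * Ks n s + 2 * Dd n s * Ms n s))
      = fun s => n * sin (ph n) ^ 3 * sin (n * s) := by
    funext s
    rw [← closedM n hn0 s]
    ring
  rw [h3] at h1
  have h4 := h1.unique h2
  rw [hD0, ph_mul n hn0, cos_pi] at h4
  have h5 : sin (ph n) ^ 2 * (4 * Ks n (ph n)) = sin (ph n) ^ 2 * (n ^ 2 * sin (ph n)) := by
    linear_combination -h4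
  have h6 := mul_left_cancel₀ (pow_ne_zero 2 hs.ne') h5
  linear_combination h6 / 4

/-- reflected weights -/
theorem wt_refl (n i : ℕ) (hn : 0 < n) (hi : i ≤ n) :
    wt n (n - i) = cos (ph n) * sin (i * ph n) - i * sin (ph n) * cos (i * ph n) := by
  have h : ((n - i : ℕ) : ℝ) * ph n = π - i * ph n := by
    rw [← ph_mul n hn, Nat.cast_sub hi]
    ring
  rw [wt, h, cos_pi_sub, sin_pi_sub, Nat.cast_sub hi]
  ring

theorem sin_mul_ph_nonneg (n i : ℕ) (hn : 0 < n) (hi : i ≤ n) : 0 ≤ sin (i * ph n) := by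
  have hp : 0 ≤ ph n := by unfold ph; positivity
  apply sin_nonneg_of_nonneg_of_le_pi
  · positivity
  · rw [← ph_mul n hn]
    apply mul_le_mul_of_nonneg_right _ hp
    exact_mod_cast hi

theorem sin_mul_ph_pos (n i : ℕ) (hi0 : 0 < i) (hi : i < n) : 0 < sin (i * ph n) := by
  have hn : 0 < n := by omega
  have hp : 0 < ph n := by unfold ph; positivity
  apply sin_pos_of_pos_of_lt_pi
  · positivity
  · rw [← ph_mul n hn]
    apply mul_lt_mul_of_pos_right _ hp
    exact_mod_cast hi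

theorem cos_ph_lt (n : ℕ) (hn : 2 ≤ n) : cos (ph n) < 1 := by
  have hs := sin_ph_pos n hn
  nlinarith [sin_sq_add_cos_sq (ph n), cos_le_one (ph n)]

theorem refl_step (n i : ℕ) :
    (cos (ph n) * sin ((i + 1 : ℕ) * ph n) - (i + 1 : ℕ) * sin (ph n) * cos ((i + 1 : ℕ) * ph n))
      - (cos (ph n) * sin (i * ph n) - i * sin (ph n) * cos (i * ph n))
      = (1 - cos (ph n)) * ((1 + i) * sin (i * ph n) + i * sin ((i + 1 : ℕ) * ph n)) := by
  have h1 : ((i + 1 : ℕ) : ℝ) * ph n = i * ph n + ph n := by push_cast; ring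
  have h2 := sin_sq_add_cos_sq (ph n)
  rw [h1, sin_add, cos_add]
  push_cast
  linear_combination (sin (i * ph n) * (1 + i)) * h2

theorem refl_pos (n i : ℕ) (hn : 2 ≤ n) (hi2 : 1 ≤ i) (hi : i + 1 ≤ n) :
    0 < cos (ph n) * sin ((i + 1 : ℕ) * ph n)
      - (i + 1 : ℕ) * sin (ph n) * cos ((i + 1 : ℕ) * ph n) := by
  have hc := cos_ph_lt n hn
  induction i, hi2 using Nat.le_induction with
  | base =>
    have h := refl_step n 1
    have h1 := sin_mul_ph_pos n 1 one_pos (by omega)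
    have h2 := sin_mul_ph_nonneg n (1 + 1) (by omega) hi
    have h3 : 0 < (1 - cos (ph n)) * ((1 + (1 : ℕ)) * sin ((1 : ℕ) * ph n)
        + (1 : ℕ) * sin ((1 + 1 : ℕ) * ph n)) := by
      apply mul_pos (by linarith)
      push_cast at h1 h2 ⊢
      linarith
    have h4 : cos (ph n) * sin ((1 : ℕ) * ph n) - (1 : ℕ) * sin (ph n) * cos ((1 : ℕ) * ph n)
        = 0 := by
      push_cast
      rw [one_mul]
      ring
    rw [← h, h4, sub_zero] at h3
    exact h3
  | succ i hi1 ih =>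
    have h := refl_step n (i + 1)
    have h1 := sin_mul_ph_pos n (i + 1) (by omega) (by omega)
    have h2 := sin_mul_ph_nonneg n (i + 1 + 1) (by omega) hi
    have h3 : 0 < (1 - cos (ph n)) * ((1 + (i + 1 : ℕ)) * sin ((i + 1 : ℕ) * ph n)
        + (i + 1 : ℕ) * sin ((i + 1 + 1 : ℕ) * ph n)) := by
      apply mul_pos (by linarith)
      have a : (0 : ℝ) < 1 + (i + 1 : ℕ) := by positivity
      have b : (0 : ℝ) ≤ (i + 1 : ℕ) := by positivity
      have := mul_pos a h1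
      have := mul_nonneg b h2
      linarith
    rw [← h] at h3
    have := ih (by omega)
    linarith

/-- positivity of the weights -/
theorem wt_pos (n j : ℕ) (hj : j + 2 ≤ n) : 0 < wt n j := by
  have h := wt_refl n (n - j) (by omega) (by omega)
  have e : n - (n - j) = j := by omega
  rw [e] at h
  rw [h]
  obtain ⟨i, hi⟩ : ∃ i, n - j = i + 1 := ⟨n - j - 1, by omega⟩
  rw [hi]
  exact refl_pos n i (by omega) (by omega) (by omega)

theorem wt_nonneg (n j : ℕ) (hn : 2 ≤ n) (hj : j < n) : 0 ≤ wt n j := by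
  rcases Nat.lt_or_ge (j + 1) n with h | h
  · exact (wt_pos n j (by omega)).le
  · have e : j = n - 1 := by omega
    have h := wt_refl n 1 (by omega) (by omega)
    rw [e, h]
    push_cast
    rw [one_mul, one_mul]
    linarith

end Pool.Agent.Zk56.UV
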